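import Mathlib

set_option autoImplicit false

open Finset

namespace Pool.Agent.Lib.MPc99423

/-- three different collinear points -/
def T (p q r : ℤ × ℤ) : Prop :=
  p ≠ q ∧ p ≠ r ∧ q ≠ r ∧ (q.1 - p.1) * (r.2 - p.2) = (q.2 - p.2) * (r.1 - p.1)

instance (p q r : ℤ × ℤ) : Decidable (T p q r) := by
  unfold T
  infer_instance

theorem T_swap {p q r : ℤ × ℤ} (h : T p q r) : T p r q := by
  obtain ⟨h1, h2, h3, h4⟩ := h
  refine ⟨h2, h1, h3.symm, ?_⟩
  linarith

theorem T_rot {p q r : ℤ × ℤ} (h : T p q r) : T q p r := by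
  obtain ⟨h1, h2, h3, h4⟩ := h
  refine ⟨h1.symm, h3, h2, ?_⟩
  linear_combination -h4

/-- the number of pairs `(u, y)`, `u ∈ F`, `y ∈ A`, collinear with `x` -/
def deg (F A : Finset (ℤ × ℤ)) (x : ℤ × ℤ) : ℕ := ((F ×ˢ A).filter (fun a => T a.1 x a.2)).card

/-- the number of triples `(u, x, y)`, `u ∈ F`, `x, y ∈ A` which are collinear -/
def EE (F A : Finset (ℤ × ℤ)) : ℕ := ∑ x ∈ A, deg F A x

/-- the number of pairs `(x, y)`, `x, y ∈ A`, collinear with `v` -/
def link (A : Finset (ℤ × ℤ)) (v : ℤ × ℤ) : ℕ := ((A ×ˢ A).filter (fun a => T v a.1 a.2)).card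

theorem deg_eq (F A : Finset (ℤ × ℤ)) (x : ℤ × ℤ) :
    deg F A x = ∑ u ∈ F, (A.filter (fun y => T u x y)).card := by
  unfold deg
  rw [card_filter, sum_product]
  refine sum_congr rfl ?_
  intro u _
  rw [card_filter]

theorem deg_eq' (F A : Finset (ℤ × ℤ)) (x : ℤ × ℤ) :
    deg F A x = ∑ y ∈ A, (F.filter (fun u => T u x y)).card := by
  unfold deg
  rw [card_filter, sum_product_right]
  refine sum_congr rfl ?_
  intro u _
  rw [card_filter]

theorem deg_mono {F A A' : Finset (ℤ × ℤ)} (h : A' ⊆ A) (x : ℤ × ℤ) : deg F A' x ≤ deg F A x := by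
  unfold deg
  exact card_le_card (filter_subset_filter _ (product_subset_product_right h))

/-- loss of collinear triples when `A` is replaced by a smaller set -/
theorem EE_loss {F A A' : Finset (ℤ × ℤ)} (h : A' ⊆ A) {M : ℕ}
    (hM : ∀ x ∈ A, deg F A x ≤ M) :
    EE F A + 2 * M * A'.card ≤ EE F A' + 2 * M * A.card := by
  have h1 : EE F A = ∑ x ∈ A', deg F A x + ∑ x ∈ A \ A', deg F A x := by
    unfold EE
    rw [add_comm, sum_sdiff h]
  have h2 : ∑ x ∈ A \ A', deg F A x ≤ (A \ A').card * M := by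
    rw [← smul_eq_mul, ← sum_const]
    exact sum_le_sum (fun x hx => hM x (mem_sdiff.1 hx).1)
  have h3 : ∑ x ∈ A', deg F A x ≤ EE F A' + ∑ y ∈ A \ A', deg F A y := by
    have h4 : ∀ x, deg F A x = deg F A' x + ∑ y ∈ A \ A', (F.filter (fun u => T u x y)).card := by
      intro x
      rw [deg_eq', deg_eq', add_comm, sum_sdiff h]
    have h5 : ∑ x ∈ A', deg F A x = EE F A'
        + ∑ y ∈ A \ A', ∑ x ∈ A', (F.filter (fun u => T u x y)).card := by
      unfold EE
      rw [sum_congr rfl (fun x _ => h4 x), sum_add_distrib, sum_comm (s := A')]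
    rw [h5]
    refine Nat.add_le_add_left (sum_le_sum ?_) _
    intro y _
    rw [deg_eq' F A y]
    refine le_trans (sum_le_sum_of_subset h) (sum_le_sum ?_)
    intro x _
    refine card_le_card ?_
    intro u hu
    rw [mem_filter] at hu ⊢
    exact ⟨hu.1, T_swap hu.2⟩
  have h6 : (A \ A').card + A'.card = A.card := card_sdiff_add_card_eq_card h
  have h7 : 2 * M * A.card = 2 * ((A \ A').card * M) + 2 * M * A'.card := by
    rw [← h6]
    ring
  omega

theorem EE_insert {F A : Finset (ℤ × ℤ)} {v : ℤ × ℤ} (hv : v ∉ F) :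
    EE (insert v F) A = EE F A + link A v := by
  unfold EE link
  have h1 : ∀ x, deg (insert v F) A x = deg F A x + (A.filter (fun y => T v x y)).card := by
    intro x
    rw [deg_eq, deg_eq, sum_insert hv, add_comm]
  rw [sum_congr rfl (fun x _ => h1 x), sum_add_distrib]
  congr 1
  rw [card_filter, sum_product]
  refine sum_congr rfl ?_
  intro x _
  rw [card_filter]

theorem link_erase (A : Finset (ℤ × ℤ)) (v : ℤ × ℤ) : link (A.erase v) v = link A v := by
  unfold link
  congr 1
  ext ⟨x, y⟩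
  simp only [mem_filter, mem_product, mem_erase]
  constructor
  · rintro ⟨⟨⟨_, h1⟩, _, h2⟩, h3⟩
    exact ⟨⟨h1, h2⟩, h3⟩
  · rintro ⟨⟨h1, h2⟩, h3⟩
    exact ⟨⟨⟨h3.1.symm, h1⟩, h3.2.1.symm, h2⟩, h3⟩

/-- the `k × k` grid -/
noncomputable def Gr (k : ℕ) : Finset (ℤ × ℤ) := Finset.Ico (0 : ℤ) k ×ˢ Finset.Ico (0 : ℤ) k

theorem mem_Gr {k : ℕ} {p : ℤ × ℤ} : p ∈ Gr k ↔ (0 ≤ p.1 ∧ p.1 < k) ∧ 0 ≤ p.2 ∧ p.2 < k := by
  rw [Gr, mem_product, Finset.mem_Ico, Finset.mem_Ico]

theorem card_Gr (k : ℕ) : (Gr k).card = k * k := by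
  rw [Gr, card_product, Int.card_Ico]
  simp

/-- a line contains at most `k` points of the grid -/
theorem line_card {k : ℕ} {A : Finset (ℤ × ℤ)} (hA : A ⊆ Gr k) (u x : ℤ × ℤ) :
    (A.filter (fun y => T u x y)).card ≤ k := by
  by_cases h : u.1 = x.1
  · calc _ ≤ (Finset.Ico (0 : ℤ) k).card := by
          refine card_le_card_of_injOn Prod.snd ?_ ?_
          · intro y hy
            rw [mem_coe, mem_filter] at hy
            have := mem_Gr.1 (hA hy.1)
            rw [mem_coe, Finset.mem_Ico]
            exact this.2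
          · intro y hy y' hy' he
            rw [mem_coe, mem_filter] at hy hy'
            obtain ⟨_, h1, _, _, h2⟩ := hy
            obtain ⟨_, _, _, _, h3⟩ := hy'
            have hne : x.2 - u.2 ≠ 0 := by
              intro h4
              exact h1 (Prod.ext h (by linarith))
            have h5 : (x.2 - u.2) * (y.1 - u.1) = 0 := by
              rw [← h2, h]
              ring
            have h6 : (x.2 - u.2) * (y'.1 - u.1) = 0 := by
              rw [← h3, h]
              ring
            have h7 := (mul_eq_zero.1 h5).resolve_left hne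
            have h8 := (mul_eq_zero.1 h6).resolve_left hne
            exact Prod.ext (by linarith) he
      _ = k := by simp
  · calc _ ≤ (Finset.Ico (0 : ℤ) k).card := by
          refine card_le_card_of_injOn Prod.fst ?_ ?_
          · intro y hy
            rw [mem_coe, mem_filter] at hy
            have := mem_Gr.1 (hA hy.1)
            rw [mem_coe, Finset.mem_Ico]
            exact this.1
          · intro y hy y' hy' he
            rw [mem_coe, mem_filter] at hy hy'
            obtain ⟨_, h1, _, _, h2⟩ := hy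
            obtain ⟨_, _, _, _, h3⟩ := hy'
            have hne : x.1 - u.1 ≠ 0 := fun h4 => h (by linarith)
            have h5 : (x.1 - u.1) * (y.2 - u.2) = (x.1 - u.1) * (y'.2 - u.2) := by
              rw [h2, h3]
              have : y.1 = y'.1 := he
              rw [this]
            have h6 := mul_left_cancel₀ hne h5
            exact Prod.ext he (by linarith)
      _ = k := by simp

theorem deg_insert {k : ℕ} {F A : Finset (ℤ × ℤ)} (hA : A ⊆ Gr k) (v x : ℤ × ℤ) :
    deg (insert v F) A x ≤ deg F A x + k := by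
  by_cases hv : v ∈ F
  · rw [insert_eq_of_mem hv]
    omega
  · rw [deg_eq, deg_eq, sum_insert hv]
    have := line_card hA v x
    omega

end Pool.Agent.Lib.MPc99423
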