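import Pool.Agent.Lib.MP_c99423_co.Tree

set_option autoImplicit false

open Finset

namespace Pool.Agent.Lib.MPc99423.Gen

section rel

variable (R : ℤ × ℤ → ℤ × ℤ → ℤ × ℤ → Prop)

open Classical in
/-- the number of pairs `(u, y)`, `u ∈ F`, `y ∈ A`, related to `x` -/
noncomputable def dg (F A : Finset (ℤ × ℤ)) (x : ℤ × ℤ) : ℕ :=
  ((F ×ˢ A).filter (fun a => R a.1 x a.2)).card

/-- the number of related triples `(u, x, y)`, `u ∈ F`, `x, y ∈ A` -/
noncomputable def eg (F A : Finset (ℤ × ℤ)) : ℕ := ∑ x ∈ A, dg R F A x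

open Classical in
/-- the number of pairs `(x, y)`, `x, y ∈ A`, related to `v` -/
noncomputable def lk (A : Finset (ℤ × ℤ)) (v : ℤ × ℤ) : ℕ :=
  ((A ×ˢ A).filter (fun a => R v a.1 a.2)).card

open Classical in
theorem dg_eq (F A : Finset (ℤ × ℤ)) (x : ℤ × ℤ) :
    dg R F A x = ∑ u ∈ F, (A.filter (fun y => R u x y)).card := by
  unfold dg
  rw [card_filter, sum_product]
  refine sum_congr rfl ?_
  intro u _
  rw [card_filter]

open Classical in
theorem dg_eq' (F A : Finset (ℤ × ℤ)) (x : ℤ × ℤ) :
    dg R F A x = ∑ y ∈ A, (F.filter (fun u => R u x y)).card := by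
  unfold dg
  rw [card_filter, sum_product_right]
  refine sum_congr rfl ?_
  intro u _
  rw [card_filter]

open Classical in
theorem dg_mono {F A A' : Finset (ℤ × ℤ)} (h : A' ⊆ A) (x : ℤ × ℤ) : dg R F A' x ≤ dg R F A x := by
  unfold dg
  exact card_le_card (filter_subset_filter _ (product_subset_product_right h))

open Classical in
/-- loss of related triples when `A` is replaced by a smaller set -/
theorem eg_loss (hsw : ∀ p q r, R p q r → R p r q) {F A A' : Finset (ℤ × ℤ)} (h : A' ⊆ A) {M : ℝ}
    (hM : ∀ x ∈ A, (dg R F A x : ℝ) ≤ M) :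
    (eg R F A : ℝ) + 2 * M * A'.card ≤ eg R F A' + 2 * M * A.card := by
  have h1 : eg R F A = ∑ x ∈ A', dg R F A x + ∑ x ∈ A \ A', dg R F A x := by
    unfold eg
    rw [add_comm, sum_sdiff h]
  have h2 : ((∑ x ∈ A \ A', dg R F A x : ℕ) : ℝ) ≤ (A \ A').card * M := by
    push_cast
    rw [← nsmul_eq_mul, ← sum_const]
    exact sum_le_sum (fun x hx => hM x (mem_sdiff.1 hx).1)
  have h3 : ∑ x ∈ A', dg R F A x ≤ eg R F A' + ∑ y ∈ A \ A', dg R F A y := by
    have h4 : ∀ x, dg R F A x = dg R F A' x
        + ∑ y ∈ A \ A', (F.filter (fun u => R u x y)).card := by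
      intro x
      rw [dg_eq', dg_eq', add_comm, sum_sdiff h]
    have h5 : ∑ x ∈ A', dg R F A x = eg R F A'
        + ∑ y ∈ A \ A', ∑ x ∈ A', (F.filter (fun u => R u x y)).card := by
      unfold eg
      rw [sum_congr rfl (fun x _ => h4 x), sum_add_distrib, sum_comm (s := A')]
    rw [h5]
    refine Nat.add_le_add_left (sum_le_sum ?_) _
    intro y _
    rw [dg_eq' R F A y]
    refine le_trans (sum_le_sum_of_subset h) (sum_le_sum ?_)
    intro x _
    refine card_le_card ?_
    intro u hu
    rw [mem_filter] at hu ⊢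
    exact ⟨hu.1, hsw _ _ _ hu.2⟩
  have h6 : (((A \ A').card : ℕ) : ℝ) + A'.card = A.card := by
    exact_mod_cast card_sdiff_add_card_eq_card h
  have h1' : (eg R F A : ℝ) = ((∑ x ∈ A', dg R F A x : ℕ) : ℝ)
      + ((∑ x ∈ A \ A', dg R F A x : ℕ) : ℝ) := by
    exact_mod_cast h1
  have h3' : ((∑ x ∈ A', dg R F A x : ℕ) : ℝ) ≤ (eg R F A' : ℝ)
      + ((∑ y ∈ A \ A', dg R F A y : ℕ) : ℝ) := by
    exact_mod_cast h3
  have h7 : 2 * M * (A.card : ℝ) = 2 * ((((A \ A').card : ℕ) : ℝ) * M) + 2 * M * A'.card := by
    rw [← h6]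
    ring
  linarith

open Classical in
theorem eg_insert {F A : Finset (ℤ × ℤ)} {v : ℤ × ℤ} (hv : v ∉ F) :
    eg R (insert v F) A = eg R F A + lk R A v := by
  unfold eg lk
  have h1 : ∀ x, dg R (insert v F) A x = dg R F A x + (A.filter (fun y => R v x y)).card := by
    intro x
    rw [dg_eq, dg_eq, sum_insert hv, add_comm]
  rw [sum_congr rfl (fun x _ => h1 x), sum_add_distrib]
  congr 1
  rw [card_filter, sum_product]
  refine sum_congr rfl ?_
  intro x _
  rw [card_filter]

theorem lk_erase (hT : ∀ p q r, R p q r → T p q r) (A : Finset (ℤ × ℤ)) (v : ℤ × ℤ) :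
    lk R (A.erase v) v = lk R A v := by
  unfold lk
  congr 1
  ext ⟨x, y⟩
  simp only [mem_filter, mem_product, mem_erase]
  constructor
  · rintro ⟨⟨⟨_, h1⟩, _, h2⟩, h3⟩
    exact ⟨⟨h1, h2⟩, h3⟩
  · rintro ⟨⟨h1, h2⟩, h3⟩
    have h4 := hT _ _ _ h3
    exact ⟨⟨⟨h4.1.symm, h1⟩, h4.2.1.symm, h2⟩, h3⟩

open Classical in
theorem dg_insert {F A : Finset (ℤ × ℤ)} (v x : ℤ × ℤ) {K : ℝ}
    (hK : ((A.filter (fun y => R v x y)).card : ℝ) ≤ K) (hK0 : 0 ≤ K) :
    (dg R (insert v F) A x : ℝ) ≤ dg R F A x + K := by
  by_cases hv : v ∈ F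
  · rw [insert_eq_of_mem hv]
    linarith
  · rw [dg_eq, dg_eq, sum_insert hv]
    push_cast
    linarith

end rel

/-- the condition on the sets of permutations -/
def Adm {k : ℕ} (F A : Finset (ℤ × ℤ)) (S : Finset (Equiv.Perm (Fin k))) : Prop :=
  ∀ π ∈ S, (F ⊆ gr π ∧ gr π ⊆ F ∪ A) ∧ ∀ p ∈ gr π, ∀ q ∈ gr π, ∀ r ∈ gr π, ¬ T p q r

/-- one phase of the container argument -/
theorem phase {k : ℕ} (hk : 0 < k) (R : ℤ × ℤ → ℤ × ℤ → ℤ × ℤ → Prop)
    (hsw : ∀ p q r, R p q r → R p r q) (hT : ∀ p q r, R p q r → T p q r)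
    {D K m a b B f : ℝ} (hD : 0 < D) (hK : 0 ≤ K) (hm : 0 < m) (hB : 0 < B)
    (hcod : ∀ (A : Finset (ℤ × ℤ)), A ⊆ Gr k → ∀ u x : ℤ × ℤ,
      (((open Classical in A.filter (fun y => R u x y)).card : ℕ) : ℝ) ≤ K)
    (hsat : ∀ A ⊆ Gr k, b < A.card → ∃ v ∈ A, m + 2 * D ≤ (lk R A v : ℝ))
    (hleaf : ∀ (F A : Finset (ℤ × ℤ)), A ⊆ Gr k → Disjoint F A → (A.card : ℝ) ≤ b →
      (F.card : ℝ) ≤ f + a / D + 2 * (D + K) * a / m → ∀ S : Finset (Equiv.Perm (Fin k)),
        Adm F A S → (S.card : ℝ) * (k : ℝ) ^ F.card ≤ B) :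
    ∀ (s : ℕ) (F₁ F₂ A : Finset (ℤ × ℤ)), A.card = s → A ⊆ Gr k → Disjoint F₁ F₂ →
      Disjoint (F₁ ∪ F₂) A → (∀ x ∈ A, (dg R F₂ A x : ℝ) ≤ D + K) →
      m * F₂.card + 2 * (D + K) * A.card ≤ eg R F₂ A + 2 * (D + K) * a →
      D * (F₁.card - f) + A.card ≤ a →
      ∀ S : Finset (Equiv.Perm (Fin k)), Adm (F₁ ∪ F₂) A S →
        (S.card : ℝ) * (k : ℝ) ^ (F₁.card + F₂.card) ≤ (1 + 1 / (k : ℝ)) ^ s * B := by
  classical
  have hkR : (0 : ℝ) < k := by exact_mod_cast hk
  have hDK : 0 < D + K := by linarith
  have h1k : 1 ≤ 1 + 1 / (k : ℝ) := by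
    have : 0 ≤ 1 / (k : ℝ) := by positivity
    linarith
  intro s
  induction s using Nat.strong_induction_on with
  | _ s ih =>
  intro F₁ F₂ A hs hA hF hFA h1 h2 h3 S hS
  rcases S.eq_empty_or_nonempty with hSe | hSne
  · rw [hSe]
    simp only [card_empty, Nat.cast_zero, zero_mul]
    positivity
  have hAc : (0 : ℝ) ≤ A.card := Nat.cast_nonneg _
  by_cases hb : (A.card : ℝ) ≤ b
  · -- leaf
    have hcard : (F₁ ∪ F₂).card = F₁.card + F₂.card := card_union_of_disjoint hF
    have hE : (eg R F₂ A : ℝ) ≤ A.card * (D + K) := by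
      unfold eg
      push_cast
      rw [← nsmul_eq_mul, ← sum_const]
      exact sum_le_sum h1
    have hf2 : (F₂.card : ℝ) ≤ 2 * (D + K) * a / m := by
      rw [le_div_iff₀ hm]
      nlinarith
    have hf1 : (F₁.card : ℝ) ≤ f + a / D := by
      have h4 : (F₁.card : ℝ) - f ≤ a / D := by
        rw [le_div_iff₀ hD]
        linarith
      linarith
    have h5 := hleaf (F₁ ∪ F₂) A hA hFA hb (by
      rw [hcard]
      push_cast
      linarith) S hS
    rw [hcard] at h5
    have h6 : (1 : ℝ) ≤ (1 + 1 / (k : ℝ)) ^ s := one_le_pow₀ h1k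
    calc _ ≤ B := h5
      _ = 1 * B := (one_mul B).symm
      _ ≤ _ := mul_le_mul_of_nonneg_right h6 hB.le
  · -- inner node
    push Not at hb
    have hno : ∀ v ∈ A, ((S.filter (fun π => v ∉ gr π)).card : ℝ) * (k : ℝ) ^ (F₁.card + F₂.card)
        ≤ (1 + 1 / (k : ℝ)) ^ (s - 1) * B := by
      intro v hv
      have hc : (A.erase v).card = s - 1 := by rw [card_erase_of_mem hv, hs]
      have hApos : 0 < A.card := card_pos.2 ⟨v, hv⟩
      have hcR : ((A.erase v).card : ℝ) = A.card - 1 := by
        rw [card_erase_of_mem hv, Nat.cast_sub (by omega)]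
        push_cast
        ring
      refine ih (s - 1) (by omega) F₁ F₂ (A.erase v) hc ((erase_subset _ _).trans hA) hF
        (disjoint_of_subset_right (erase_subset _ _) hFA) ?_ ?_ ?_ _ ?_
      · intro x hx
        have h4 : (dg R F₂ (A.erase v) x : ℝ) ≤ dg R F₂ A x := by
          exact_mod_cast dg_mono R (erase_subset _ _) x
        exact h4.trans (h1 x (mem_of_mem_erase hx))
      · have h4 := eg_loss R hsw (F := F₂) (erase_subset v A) h1
        linarith
      · rw [hcR]
        linarith
      · intro π hπ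
        rw [mem_filter] at hπ
        obtain ⟨⟨h4, h5⟩, h6⟩ := hS π hπ.1
        refine ⟨⟨h4, ?_⟩, h6⟩
        intro p hp
        rcases mem_union.1 (h5 hp) with h7 | h7
        · exact mem_union_left _ h7
        · refine mem_union_right _ (mem_erase.2 ⟨?_, h7⟩)
          rintro rfl
          exact hπ.2 hp
    have comb : ∀ v ∈ A, ((S.filter (fun π => v ∈ gr π)).card : ℝ) *
        (k : ℝ) ^ (F₁.card + F₂.card + 1) ≤ (1 + 1 / (k : ℝ)) ^ (s - 1) * B →
        (S.card : ℝ) * (k : ℝ) ^ (F₁.card + F₂.card) ≤ (1 + 1 / (k : ℝ)) ^ s * B := by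
      intro v hv hyes
      have hApos : 0 < A.card := card_pos.2 ⟨v, hv⟩
      have h4 := hno v hv
      have h5 : (S.card : ℝ) = ((S.filter (fun π => v ∈ gr π)).card : ℝ)
          + ((S.filter (fun π => v ∉ gr π)).card : ℝ) := by
        exact_mod_cast (card_filter_add_card_filter_not (s := S) (fun π => v ∈ gr π)).symm
      have h6 : ((S.filter (fun π => v ∈ gr π)).card : ℝ) * (k : ℝ) ^ (F₁.card + F₂.card)
          ≤ (1 + 1 / (k : ℝ)) ^ (s - 1) * B * (1 / k) := by
        rw [mul_one_div, le_div_iff₀ hkR, mul_assoc, ← pow_succ]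
        exact hyes
      have h7 : (1 + 1 / (k : ℝ)) ^ s = (1 + 1 / (k : ℝ)) ^ (s - 1) * (1 + 1 / (k : ℝ)) := by
        rw [← pow_succ]
        congr 1
        omega
      rw [h5, add_mul, h7]
      have h8 : (1 + 1 / (k : ℝ)) ^ (s - 1) * (1 + 1 / (k : ℝ)) * B
          = (1 + 1 / (k : ℝ)) ^ (s - 1) * B * (1 / k)
            + (1 + 1 / (k : ℝ)) ^ (s - 1) * B := by ring
      rw [h8]
      exact add_le_add h6 h4
    by_cases hbig : ∃ v ∈ A, D ≤ (dg R F₂ A v : ℝ)
    · -- kill the neighbours of `v`
      obtain ⟨v, hv, hdv⟩ := hbig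
      refine comb v hv ?_
      rcases (S.filter (fun π => v ∈ gr π)).eq_empty_or_nonempty with hSe | hSn
      · rw [hSe]
        simp only [card_empty, Nat.cast_zero, zero_mul]
        positivity
      have hApos : 0 < A.card := card_pos.2 ⟨v, hv⟩
      obtain ⟨N, hN⟩ : ∃ N, N = A.filter (fun y => ∃ u ∈ F₂, R u v y) := ⟨_, rfl⟩
      have hNA : N ⊆ A := by
        rw [hN]
        exact filter_subset _ _
      have hvN : v ∉ N := by
        rw [hN, mem_filter]
        rintro ⟨_, u, _, h4⟩
        exact (hT _ _ _ h4).2.2.1 rfl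
      have hNc' : dg R F₂ A v ≤ N.card := by
        obtain ⟨π, hπ⟩ := hSn
        rw [mem_filter] at hπ
        obtain ⟨⟨h4, h5⟩, h6⟩ := hS π hπ.1
        unfold dg
        refine card_le_card_of_injOn Prod.snd ?_ ?_
        · intro b hb
          rw [mem_coe, mem_filter, mem_product] at hb
          rw [mem_coe, hN, mem_filter]
          exact ⟨hb.1.2, b.1, hb.1.1, hb.2⟩
        · rintro ⟨u, y⟩ hb ⟨u', y'⟩ hb' he
          rw [mem_coe, mem_filter, mem_product] at hb hb'
          simp only at hb hb' he
          subst he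
          by_contra hne
          have huu : u ≠ u' := fun h => hne (by rw [h])
          obtain ⟨⟨hu, _⟩, hr1⟩ := hb
          obtain ⟨⟨hu', _⟩, hr2⟩ := hb'
          obtain ⟨g1, g2, g3, g4⟩ := hT _ _ _ hr1
          obtain ⟨g5, g6, g7, g8⟩ := hT _ _ _ hr2
          refine h6 u (h4 (mem_union_right _ hu)) v hπ.2 u' (h4 (mem_union_right _ hu'))
            ⟨g1, huu, g5.symm, ?_⟩
          have e1 : (u.1 - v.1) * (y.2 - v.2) = (u.2 - v.2) * (y.1 - v.1) := by
            linear_combination -g4
          have e2 : (u'.1 - v.1) * (y.2 - v.2) = (u'.2 - v.2) * (y.1 - v.1) := by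
            linear_combination -g8
          have e3 : (u.1 - v.1) * (u'.2 - v.2) = (u.2 - v.2) * (u'.1 - v.1) := by
            by_cases hx : y.1 - v.1 = 0
            · have hy : y.2 - v.2 ≠ 0 := by
                intro hy
                exact g3 (Prod.ext (by linarith) (by linarith))
              rw [hx, mul_zero] at e1 e2
              have e4 := (mul_eq_zero.1 e1).resolve_right hy
              have e5 := (mul_eq_zero.1 e2).resolve_right hy
              rw [e4, e5]
              ring
            · refine mul_right_cancel₀ hx ?_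
              linear_combination (u.1 - v.1) * (-e2) + (u'.1 - v.1) * e1
          linear_combination -e3
      have hNc : D ≤ (N.card : ℝ) := hdv.trans (by exact_mod_cast hNc')
      obtain ⟨A', hA'⟩ : ∃ A', A' = (A.erase v) \ N := ⟨_, rfl⟩
      have hA'A : A' ⊆ A := by
        rw [hA']
        exact sdiff_subset.trans (erase_subset _ _)
      have hcN : A'.card + N.card ≤ s - 1 := by
        have h4 : N ⊆ A.erase v := by
          intro x hx
          refine mem_erase.2 ⟨?_, hNA hx⟩
          rintro rfl
          exact hvN hx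
        have h5 := card_sdiff_add_card_eq_card h4
        rw [← hA'] at h5
        rw [h5, card_erase_of_mem hv, hs]
      have hcNR : (A'.card : ℝ) + D ≤ A.card := by
        have h4 : (A'.card : ℝ) + N.card ≤ A.card := by
          exact_mod_cast (by omega : A'.card + N.card ≤ A.card)
        linarith
      have hF1v : v ∉ F₁ := fun h =>
        (Finset.disjoint_left.1 hFA (mem_union_left _ h)) hv
      have hF2v : v ∉ F₂ := fun h =>
        (Finset.disjoint_left.1 hFA (mem_union_right _ h)) hv
      have hci : (insert v F₁).card = F₁.card + 1 := card_insert_of_notMem hF1v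
      have h9 := ih A'.card (by omega) (insert v F₁) F₂ A' rfl (hA'A.trans hA) (by
          rw [Finset.disjoint_left]
          intro x hx hx'
          rcases mem_insert.1 hx with h4 | h4
          · rw [h4] at hx'
            exact hF2v hx'
          · exact (Finset.disjoint_left.1 hF h4) hx')
        (by
          rw [Finset.disjoint_left]
          intro x hx hx'
          rw [mem_union, mem_insert] at hx
          rcases hx with (h4 | h4) | h4
          · rw [h4, hA', mem_sdiff, mem_erase] at hx'
            exact hx'.1.1 rfl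
          · exact (Finset.disjoint_left.1 hFA (mem_union_left _ h4)) (hA'A hx')
          · exact (Finset.disjoint_left.1 hFA (mem_union_right _ h4)) (hA'A hx'))
        (fun x hx => by
          have h4 : (dg R F₂ A' x : ℝ) ≤ dg R F₂ A x := by
            exact_mod_cast dg_mono R hA'A x
          exact h4.trans (h1 x (hA'A hx)))
        (by
          have h4 := eg_loss R hsw (F := F₂) hA'A h1
          linarith)
        (by
          rw [hci]
          push_cast
          linarith)
        (S.filter (fun π => v ∈ gr π)) (by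
          intro π hπ
          rw [mem_filter] at hπ
          obtain ⟨⟨h4, h5⟩, h6⟩ := hS π hπ.1
          refine ⟨⟨?_, ?_⟩, h6⟩
          · intro p hp
            rw [mem_union, mem_insert] at hp
            rcases hp with (h7 | h7) | h7
            · rw [h7]
              exact hπ.2
            · exact h4 (mem_union_left _ h7)
            · exact h4 (mem_union_right _ h7)
          · intro p hp
            rcases mem_union.1 (h5 hp) with h7 | h7
            · refine mem_union_left _ ?_
              rcases mem_union.1 h7 with h8 | h8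
              · exact mem_union_left _ (mem_insert_of_mem h8)
              · exact mem_union_right _ h8
            · by_cases hpv : p = v
              · rw [hpv]
                exact mem_union_left _ (mem_union_left _ (mem_insert_self _ _))
              · refine mem_union_right _ ?_
                rw [hA', mem_sdiff, mem_erase]
                refine ⟨⟨hpv, h7⟩, ?_⟩
                rw [hN, mem_filter]
                rintro ⟨_, u, hu, h8⟩
                exact h6 u (h4 (mem_union_right _ hu)) v hπ.2 p hp (hT _ _ _ h8))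
      rw [hci] at h9
      have e2 : F₁.card + 1 + F₂.card = F₁.card + F₂.card + 1 := by ring
      rw [e2] at h9
      refine h9.trans (mul_le_mul_of_nonneg_right ?_ hB.le)
      exact pow_le_pow_right₀ h1k (by omega)
    · -- add `v` to the generators
      push Not at hbig
      obtain ⟨v, hv, hlv⟩ := hsat A hA hb
      refine comb v hv ?_
      have hApos : 0 < A.card := card_pos.2 ⟨v, hv⟩
      have hc : (A.erase v).card = s - 1 := by rw [card_erase_of_mem hv, hs]
      have hcR : ((A.erase v).card : ℝ) = A.card - 1 := by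
        rw [card_erase_of_mem hv, Nat.cast_sub (by omega)]
        push_cast
        ring
      have hF1v : v ∉ F₁ := fun h =>
        (Finset.disjoint_left.1 hFA (mem_union_left _ h)) hv
      have hF2v : v ∉ F₂ := fun h =>
        (Finset.disjoint_left.1 hFA (mem_union_right _ h)) hv
      have hci : (insert v F₂).card = F₂.card + 1 := card_insert_of_notMem hF2v
      have h9 := ih (s - 1) (by omega) F₁ (insert v F₂) (A.erase v) hc
        ((erase_subset _ _).trans hA) (by
          rw [Finset.disjoint_left]
          intro x hx hx'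
          rcases mem_insert.1 hx' with h4 | h4
          · rw [h4] at hx
            exact hF1v hx
          · exact (Finset.disjoint_left.1 hF hx) h4)
        (by
          rw [Finset.disjoint_left]
          intro x hx hx'
          rw [mem_union, mem_insert] at hx
          rw [mem_erase] at hx'
          rcases hx with h4 | h4 | h4
          · exact (Finset.disjoint_left.1 hFA (mem_union_left _ h4)) hx'.2
          · exact hx'.1 h4
          · exact (Finset.disjoint_left.1 hFA (mem_union_right _ h4)) hx'.2)
        (by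
          intro x hx
          rw [mem_erase] at hx
          have h4 := dg_insert R (F := F₂) (A := A.erase v) v x
            (by
              have := hcod (A.erase v) ((erase_subset v A).trans hA) v x
              convert this) hK
          have h5 : (dg R F₂ (A.erase v) x : ℝ) ≤ dg R F₂ A x := by
            exact_mod_cast dg_mono R (erase_subset v A) x
          have h6 := hbig x hx.2
          linarith)
        (by
          rw [hci, eg_insert R hF2v, lk_erase R hT, hcR]
          have h5 := eg_loss R hsw (F := F₂) (M := D) (erase_subset v A)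
              (fun x hx => (hbig x hx).le)
          rw [hcR] at h5
          push_cast
          linarith)
        (by
          rw [hcR]
          linarith)
        (S.filter (fun π => v ∈ gr π)) (by
          intro π hπ
          rw [mem_filter] at hπ
          obtain ⟨⟨h4, h5⟩, h6⟩ := hS π hπ.1
          refine ⟨⟨?_, ?_⟩, h6⟩
          · intro p hp
            rw [mem_union, mem_insert] at hp
            rcases hp with h7 | h7 | h7
            · exact h4 (mem_union_left _ h7)
            · rw [h7]
              exact hπ.2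
            · exact h4 (mem_union_right _ h7)
          · intro p hp
            rcases mem_union.1 (h5 hp) with h7 | h7
            · refine mem_union_left _ ?_
              rcases mem_union.1 h7 with h8 | h8
              · exact mem_union_left _ h8
              · exact mem_union_right _ (mem_insert_of_mem h8)
            · by_cases hpv : p = v
              · rw [hpv]
                exact mem_union_left _ (mem_union_right _ (mem_insert_self _ _))
              · exact mem_union_right _ (mem_erase.2 ⟨hpv, h7⟩))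
      rw [hci] at h9
      have e2 : F₁.card + (F₂.card + 1) = F₁.card + F₂.card + 1 := by ring
      rw [e2] at h9
      exact h9

end Pool.Agent.Lib.MPc99423.Gen
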