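import Pool.Agent.Lib.MP_c99423_co.Sat

set_option autoImplicit false

open Finset

namespace Pool.Agent.Lib.MPc99423

/-- a lower bound for the sum of `φ(b) / b²` -/
theorem totient_sum (N : ℕ) :
    Real.log ((N : ℝ) + 1) ≤ 2 * ∑ b ∈ Icc 1 N, (Nat.totient b : ℝ) / (b : ℝ) ^ 2 := by
  have h1 : Real.log ((N : ℝ) + 1) ≤ ∑ n ∈ Icc 1 N, (1 : ℝ) / n := by
    have h2 := log_add_one_le_harmonic N
    have h3 : ((harmonic N : ℚ) : ℝ) = ∑ n ∈ Icc 1 N, (1 : ℝ) / n := by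
      rw [harmonic_eq_sum_Icc]
      push_cast
      refine sum_congr rfl ?_
      intro n _
      rw [one_div]
    rw [← h3]
    push_cast at h2
    exact h2
  have h4 : ∀ n ∈ Icc 1 N, (1 : ℝ) / n ≤ ∑ d ∈ Icc 1 N, ∑ m ∈ Icc 1 N,
      if d * m = n then (Nat.totient d : ℝ) / ((d : ℝ) ^ 2 * (m : ℝ) ^ 2) else 0 := by
    intro n hn
    rw [mem_Icc] at hn
    have hn0 : (0 : ℝ) < n := by exact_mod_cast (by omega : 0 < n)
    have h5 : (1 : ℝ) / n = ∑ d ∈ n.divisors, (Nat.totient d : ℝ) / (n : ℝ) ^ 2 := by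
      rw [← sum_div]
      have h6 : ((∑ d ∈ n.divisors, Nat.totient d : ℕ) : ℝ) = (n : ℝ) := by
        rw [Nat.sum_totient]
      push_cast at h6
      rw [h6]
      field_simp
    rw [h5]
    have hsub : n.divisors ⊆ Icc 1 N := by
      intro d hd
      rw [Nat.mem_divisors] at hd
      rw [mem_Icc]
      exact ⟨Nat.pos_of_dvd_of_pos hd.1 (by omega),
        (Nat.le_of_dvd (by omega) hd.1).trans hn.2⟩
    have hnn : ∀ d m : ℕ, (0 : ℝ) ≤ if d * m = n then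
        (Nat.totient d : ℝ) / ((d : ℝ) ^ 2 * (m : ℝ) ^ 2) else 0 := by
      intro d m
      split_ifs
      · positivity
      · exact le_refl _
    refine le_trans ?_ (sum_le_sum_of_subset_of_nonneg hsub
      (fun d _ _ => sum_nonneg (fun m _ => hnn d m)))
    refine sum_le_sum ?_
    intro d hd
    rw [Nat.mem_divisors] at hd
    obtain ⟨⟨m, hm⟩, _⟩ := hd
    have hmm : m ∈ Icc 1 N := by
      rw [mem_Icc]
      have : m ∣ n := ⟨d, by rw [hm]; ring⟩
      exact ⟨Nat.pos_of_dvd_of_pos this (by omega),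
        (Nat.le_of_dvd (by omega) this).trans hn.2⟩
    refine le_trans (le_of_eq ?_) (single_le_sum (fun m _ => hnn d m) hmm)
    rw [if_pos hm.symm, hm]
    push_cast
    rw [mul_pow]
  have h7 : ∑ n ∈ Icc 1 N, (1 : ℝ) / n ≤ ∑ d ∈ Icc 1 N, ∑ m ∈ Icc 1 N,
      (Nat.totient d : ℝ) / ((d : ℝ) ^ 2 * (m : ℝ) ^ 2) := by
    refine le_trans (sum_le_sum h4) ?_
    rw [sum_comm]
    refine sum_le_sum ?_
    intro d _
    rw [sum_comm]
    refine sum_le_sum ?_
    intro m _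
    rw [sum_ite_eq]
    split_ifs
    · exact le_refl _
    · positivity
  have h8 : ∑ m ∈ Icc 1 N, (1 : ℝ) / (m : ℝ) ^ 2 ≤ 2 := by
    have h9 := sum_Ioo_inv_sq_le (α := ℝ) 0 (N + 1)
    have h10 : Finset.Ioo 0 (N + 1) = Icc 1 N := by
      ext x
      rw [Finset.mem_Ioo, mem_Icc]
      omega
    rw [h10] at h9
    calc _ = ∑ m ∈ Icc 1 N, ((m : ℝ) ^ 2)⁻¹ := sum_congr rfl (fun m _ => one_div _)
      _ ≤ _ := h9
      _ = 2 := by norm_num
  calc Real.log ((N : ℝ) + 1) ≤ _ := h1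
    _ ≤ _ := h7
    _ = ∑ d ∈ Icc 1 N, (Nat.totient d : ℝ) / (d : ℝ) ^ 2 * ∑ m ∈ Icc 1 N, (1 : ℝ) / (m : ℝ) ^ 2 := by
        refine sum_congr rfl ?_
        intro d _
        rw [mul_sum]
        refine sum_congr rfl ?_
        intro m _
        rw [div_mul_div_comm, mul_one]
    _ ≤ ∑ d ∈ Icc 1 N, (Nat.totient d : ℝ) / (d : ℝ) ^ 2 * 2 := by
        refine sum_le_sum ?_
        intro d _
        exact mul_le_mul_of_nonneg_left h8 (by positivity)
    _ = _ := by rw [← sum_mul, mul_comm]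

/-- the primitive directions -/
def DirC (N : ℕ) : Finset (ℕ × ℕ) :=
  (Icc 1 N).biUnion (fun p => ((range p).filter (fun a => p.Coprime a)).image (fun a => (p, a)))

theorem mem_DirC {N : ℕ} {d : ℕ × ℕ} : d ∈ DirC N ↔
    (1 ≤ d.1 ∧ d.1 ≤ N) ∧ d.2 < d.1 ∧ d.1.Coprime d.2 := by
  simp only [DirC, mem_biUnion, mem_image, mem_filter, mem_range, mem_Icc]
  constructor
  · rintro ⟨p, hp, a, ⟨h1, h2⟩, rfl⟩
    exact ⟨hp, h1, h2⟩
  · rintro ⟨h1, h2, h3⟩
    exact ⟨d.1, h1, d.2, ⟨h2, h3⟩, rfl⟩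

theorem Sd_disjC {A : Finset (ℤ × ℤ)} {N : ℕ} (v : ℤ × ℤ) :
    ((DirC N : Finset (ℕ × ℕ)) : Set (ℕ × ℕ)).PairwiseDisjoint (fun d => Sd A d.1 d.2 v) := by
  intro d hd d' hd' hne
  rw [mem_coe, mem_DirC] at hd hd'
  show Disjoint (Sd A d.1 d.2 v) (Sd A d'.1 d'.2 v)
  rw [Finset.disjoint_left]
  intro b hb hb'
  obtain ⟨⟨_, h2, h3⟩, _⟩ := mem_Sd.1 hb
  obtain ⟨⟨_, _, h4⟩, _⟩ := mem_Sd.1 hb'
  refine hne ?_
  unfold lf at h3 h4
  obtain ⟨p, a⟩ := d
  obtain ⟨p', a'⟩ := d'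
  simp only at hd hd' h3 h4
  have hp0 : (0 : ℤ) < p := by exact_mod_cast (by omega : 0 < p)
  have hp0' : (0 : ℤ) < p' := by exact_mod_cast (by omega : 0 < p')
  have e1 : (p : ℤ) * (b.1.1 - v.1) = a * (b.1.2 - v.2) := by linarith
  have e2 : (p' : ℤ) * (b.1.1 - v.1) = a' * (b.1.2 - v.2) := by linarith
  have hy : b.1.2 - v.2 ≠ 0 := by
    intro h
    rw [h, mul_zero] at e1
    have h5 := (mul_eq_zero.1 e1).resolve_left hp0.ne'
    exact h2 (Prod.ext (by linarith) (by linarith))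
  have e3 : (p : ℤ) * a' = p' * a := by
    refine mul_right_cancel₀ hy ?_
    calc (p : ℤ) * a' * (b.1.2 - v.2) = p * (a' * (b.1.2 - v.2)) := by ring
      _ = p * (p' * (b.1.1 - v.1)) := by rw [e2]
      _ = p' * (p * (b.1.1 - v.1)) := by ring
      _ = p' * (a * (b.1.2 - v.2)) := by rw [e1]
      _ = p' * a * (b.1.2 - v.2) := by ring
  have e4 : p * a' = p' * a := by exact_mod_cast e3
  have h6 : p ∣ p' := hd.2.2.dvd_of_dvd_mul_right ⟨a', e4.symm⟩
  have h7 : p' ∣ p := hd'.2.2.dvd_of_dvd_mul_right ⟨a, e4⟩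
  have h8 := Nat.dvd_antisymm h6 h7
  subst h8
  have h9 := Nat.eq_of_mul_eq_mul_left (by omega : 0 < p) e4
  rw [h9]

theorem Sd_sumC {A : Finset (ℤ × ℤ)} {N : ℕ} (v : ℤ × ℤ) :
    ∑ d ∈ DirC N, (Sd A d.1 d.2 v).card ≤ link A v := by
  rw [← card_biUnion (Sd_disjC v)]
  unfold link
  refine card_le_card ?_
  intro b hb
  rw [mem_biUnion] at hb
  obtain ⟨d, hd, hb⟩ := hb
  rw [mem_DirC] at hd
  exact Sd_sub (by omega) v hb

/-- supersaturation with explicit constants -/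
theorem sat2 {δ : ℝ} (hδ : 0 < δ) {k : ℕ} (hk0 : 0 < k)
    (hbig : 12288 ≤ δ ^ 2 * Real.log (δ * k / 16)) :
    ∀ A ⊆ Gr k, δ * (k : ℝ) ^ 2 < A.card → ∃ v ∈ A, 40 * k ^ 2 + 8 * k ≤ link A v := by
  classical
  intro A hA hcard
  have hkR : (0 : ℝ) < k := by exact_mod_cast hk0
  have hApos : (0 : ℝ) < A.card := lt_of_le_of_lt (by positivity) hcard
  obtain ⟨N, hN⟩ : ∃ N, N = ⌊δ * k / 16⌋₊ := ⟨_, rfl⟩
  have hN1 : (N : ℝ) ≤ δ * k / 16 := by
    rw [hN]
    exact Nat.floor_le (by positivity)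
  have hN2 : δ * k / 16 ≤ (N : ℝ) + 1 := by
    rw [hN]
    exact (Nat.lt_floor_add_one _).le
  have hlog : 12288 ≤ δ ^ 2 * (2 * ∑ b ∈ Icc 1 N, (Nat.totient b : ℝ) / (b : ℝ) ^ 2) := by
    refine hbig.trans (mul_le_mul_of_nonneg_left ?_ (by positivity))
    refine le_trans (Real.log_le_log (by positivity) hN2) (totient_sum N)
  have hdir : ∀ p ∈ Icc 1 N, ∀ a, a < p →
      (A.card : ℝ) * (δ ^ 2 * k ^ 2 / (128 * p ^ 2)) ≤ ((∑ v ∈ A, (Sd A p a v).card : ℕ) : ℝ) := by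
    intro p hp a ha
    rw [mem_Icc] at hp
    have hp0 : (0 : ℝ) < p := by exact_mod_cast (by omega : 0 < p)
    have hpN : (p : ℝ) ≤ N := by exact_mod_cast hp.2
    have hc : 2 ≤ δ * k / (8 * p) := by
      rw [le_div_iff₀ (by positivity)]
      linarith
    have h2 := one_dir hA ha hk0 hc (by
      have : δ * k / (8 * p) * (8 * p * k) = δ * (k : ℝ) ^ 2 := by
        field_simp
      rw [this]
      exact hcard.le)
    refine le_trans (le_of_eq ?_) h2
    field_simp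
    ring
  have hsum : (A.card : ℝ) * (48 * k ^ 2) ≤ ((∑ v ∈ A, link A v : ℕ) : ℝ) := by
    have h3 : ((∑ v ∈ A, ∑ d ∈ DirC N, (Sd A d.1 d.2 v).card : ℕ) : ℝ)
        ≤ ((∑ v ∈ A, link A v : ℕ) : ℝ) := by
      exact_mod_cast sum_le_sum (fun v _ => Sd_sumC v)
    refine le_trans ?_ h3
    rw [sum_comm]
    have h4 : ∑ d ∈ DirC N, ∑ v ∈ A, (Sd A d.1 d.2 v).card
        = ∑ p ∈ Icc 1 N, ∑ a ∈ (range p).filter (fun a => p.Coprime a),
          ∑ v ∈ A, (Sd A p a v).card := by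
      unfold DirC
      rw [sum_biUnion]
      · refine sum_congr rfl ?_
        intro p _
        rw [sum_image]
        intro a _ b _ hab
        exact (Prod.mk.inj hab).2
      · intro p _ q _ hpq
        show Disjoint (((range p).filter (fun a => p.Coprime a)).image (fun a => (p, a)))
          (((range q).filter (fun a => q.Coprime a)).image (fun a => (q, a)))
        rw [Finset.disjoint_left]
        intro x hx hy
        rw [mem_image] at hx hy
        obtain ⟨a, _, rfl⟩ := hx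
        obtain ⟨b, _, hb⟩ := hy
        exact hpq (Prod.mk.inj hb).1.symm
    rw [h4]
    push_cast
    have h5 : ∀ p ∈ Icc 1 N, (A.card : ℝ) * (δ ^ 2 * k ^ 2 / 128) * ((Nat.totient p : ℝ) / p ^ 2)
        ≤ ∑ a ∈ (range p).filter (fun a => p.Coprime a), ∑ v ∈ A, ((Sd A p a v).card : ℝ) := by
      intro p hp
      have hp0 : (0 : ℝ) < p := by
        rw [mem_Icc] at hp
        exact_mod_cast (by omega : 0 < p)
      have h6 : ∀ a ∈ (range p).filter (fun a => p.Coprime a),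
          (A.card : ℝ) * (δ ^ 2 * k ^ 2 / (128 * p ^ 2)) ≤ ∑ v ∈ A, ((Sd A p a v).card : ℝ) := by
        intro a ha
        rw [mem_filter, mem_range] at ha
        have := hdir p hp a ha.1
        push_cast at this
        exact this
      refine le_trans ?_ (sum_le_sum h6)
      rw [sum_const, ← Nat.totient_eq_card_coprime, nsmul_eq_mul]
      refine le_of_eq ?_
      field_simp
    refine le_trans ?_ (sum_le_sum h5)
    rw [← mul_sum]
    have h9 : (A.card : ℝ) * (δ ^ 2 * k ^ 2 / 128) * ∑ b ∈ Icc 1 N, (Nat.totient b : ℝ) / (b : ℝ) ^ 2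
        = (A.card : ℝ) * k ^ 2 / 256 *
          (δ ^ 2 * (2 * ∑ b ∈ Icc 1 N, (Nat.totient b : ℝ) / (b : ℝ) ^ 2)) := by
      ring
    rw [h9]
    calc (A.card : ℝ) * (48 * k ^ 2) = (A.card : ℝ) * k ^ 2 / 256 * 12288 := by ring
      _ ≤ _ := mul_le_mul_of_nonneg_left hlog (by positivity)
  by_contra hcon
  push Not at hcon
  have hAne : A.Nonempty := by
    rw [← card_pos]
    exact_mod_cast hApos
  have h10' : ∑ v ∈ A, link A v < A.card * (40 * k ^ 2 + 8 * k) := by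
    rw [← smul_eq_mul, ← sum_const]
    exact sum_lt_sum_of_nonempty hAne (fun v hv => hcon v hv)
  have h11 : ((∑ v ∈ A, link A v : ℕ) : ℝ) < ((A.card * (40 * k ^ 2 + 8 * k) : ℕ) : ℝ) := by
    exact_mod_cast h10'
  push_cast at h11 hsum
  have h12 : (A.card : ℝ) * (40 * k ^ 2 + 8 * k) ≤ (A.card : ℝ) * (48 * k ^ 2) := by
    refine mul_le_mul_of_nonneg_left ?_ hApos.le
    have : (1 : ℝ) ≤ k := by exact_mod_cast hk0
    nlinarith
  linarith

end Pool.Agent.Lib.MPc99423
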