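import Pool.Agent.Lib.MP_c99423_co.Rare
import Pool.Agent.Lib.MP_c99423_co.Sat2

set_option autoImplicit false

open Finset

namespace Pool.Agent.Lib.MPc99423

/-- the permutations attached to the solutions -/
theorem perms {k : ℕ} (F : Finset (Finset (ℤ × ℤ))) (hF : ∀ S ∈ F, RectSol (2 * k) S) :
    ∃ Q : Finset (Equiv.Perm (Fin k)), Q.card = F.card ∧
      ∀ π ∈ Q, ∀ p ∈ gr π, ∀ q ∈ gr π, ∀ r ∈ gr π, ¬ T p q r := by
  classical
  choose! P hP using fun S (hS : S ∈ F) => exists_perm (hF S hS)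
  have hinj : Set.InjOn P (F : Set (Finset (ℤ × ℤ))) := by
    intro S hS S' hS' he
    have h1 := hP S hS
    have h2 := hP S' hS'
    refine Finset.Subset.antisymm ?_ ?_
    · exact determined (hF S hS) (hF S' hS') (P S) h1.2.2 (by rw [he]; exact h2.2.1)
    · exact determined (hF S' hS') (hF S hS) (P S') h2.2.2 (by rw [← he]; exact h1.2.1)
  refine ⟨F.image P, card_image_of_injOn hinj, ?_⟩
  intro π hπ
  rw [mem_image] at hπ
  obtain ⟨S, hS, rfl⟩ := hπ
  exact (hP S hS).1

/-- the count of permutations without three collinear points in the graph -/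
theorem count {k : ℕ} (hk0 : 0 < k) {θ : ℝ} (hθ : 0 < θ) (hθ1 : θ ≤ 1)
    (hbig : 12288 ≤ (θ ^ 2) ^ 2 * Real.log (θ ^ 2 * k / 16)) (Q : Finset (Equiv.Perm (Fin k)))
    (hQ : ∀ π ∈ Q, ∀ p ∈ gr π, ∀ q ∈ gr π, ∀ r ∈ gr π, ¬ T p q r) :
    (Q.card : ℝ) ≤ (Real.exp 3 * θ) ^ k * (k.factorial : ℝ) := by
  classical
  have hkR : (0 : ℝ) < k := by exact_mod_cast hk0
  have h3 := tree hk0 hθ hθ1 (sat2 (by positivity) hk0 hbig) (k * k) ∅ ∅ (Gr k) (card_Gr k)
    (Finset.Subset.refl _) (disjoint_empty_left _) (by simp) (by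
      intro x _
      rw [deg_eq]
      simp) (by
      rw [card_Gr]
      simp) (by
      rw [card_Gr]
      simp) Q (by
      intro π hπ
      refine ⟨⟨by simp, ?_⟩, hQ π hπ⟩
      intro p hp
      exact mem_union_right _ (gr_sub _ hp))
  rw [card_empty, add_zero, pow_zero, mul_one] at h3
  have h4 : (1 + 1 / (k : ℝ)) ^ (k * k) ≤ Real.exp k := by
    have h5 : 1 + 1 / (k : ℝ) ≤ Real.exp (1 / k) := by
      have := Real.add_one_le_exp (1 / (k : ℝ))
      linarith
    calc (1 + 1 / (k : ℝ)) ^ (k * k) ≤ Real.exp (1 / k) ^ (k * k) :=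
          pow_le_pow_left₀ (by positivity) h5 _
      _ = Real.exp (((k * k : ℕ) : ℝ) * (1 / k)) := (Real.exp_nat_mul _ _).symm
      _ = Real.exp k := by
          congr 1
          push_cast
          field_simp
  have h6 : (k : ℝ) ^ k ≤ Real.exp k * (k.factorial : ℝ) := by
    have h7 := Real.pow_div_factorial_le_exp (k : ℝ) hkR.le k
    rw [div_le_iff₀ (by positivity)] at h7
    exact h7
  calc (Q.card : ℝ) ≤ (1 + 1 / (k : ℝ)) ^ (k * k) * BB k θ := h3
    _ ≤ Real.exp k * BB k θ := by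
        refine mul_le_mul_of_nonneg_right h4 ?_
        unfold BB
        positivity
    _ = Real.exp k * (Real.exp k * (k : ℝ) ^ k * θ ^ k) := rfl
    _ ≤ Real.exp k * (Real.exp k * (Real.exp k * (k.factorial : ℝ)) * θ ^ k) := by
        gcongr
    _ = (Real.exp 3 * θ) ^ k * (k.factorial : ℝ) := by
        rw [mul_pow, ← Real.exp_nat_mul]
        have h8 : Real.exp ((k : ℝ) * 3) = Real.exp k * (Real.exp k * Real.exp k) := by
          rw [← Real.exp_add, ← Real.exp_add]
          congr 1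
          ring
        rw [h8]
        ring

/-- the number of solutions with the symmetry of a rectangle -/
theorem rare2 {n : ℕ} (hn : 2 ≤ n) (F : Finset (Finset (ℤ × ℤ))) (hF : ∀ S ∈ F, RectSol n S) :
    (F.card : ℝ) ≤ (24 / Real.log n ^ ((1 : ℝ) / 8)) ^ n * ((n / 2).factorial : ℝ) := by
  classical
  have hlog : 0 < Real.log n := Real.log_pos (by exact_mod_cast (by omega : 1 < n))
  rcases Nat.even_or_odd n with he | ho
  swap
  · have h1 : F = ∅ := by
      rw [eq_empty_iff_forall_notMem]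
      intro S hS
      exact not_odd ho S (hF S hS)
    rw [h1]
    simp only [card_empty, Nat.cast_zero]
    positivity
  obtain ⟨k, hk⟩ := he
  have hk2 : n = 2 * k := by omega
  subst hk2
  have hdiv : 2 * k / 2 = k := by omega
  rw [hdiv]
  have hk0 : 0 < k := by omega
  have hkR : (0 : ℝ) < k := by exact_mod_cast hk0
  obtain ⟨Q, hQc, hQ⟩ := perms F hF
  rw [← hQc]
  obtain ⟨y, hy⟩ : ∃ y, y = Real.log ((2 * k : ℕ) : ℝ) ^ ((1 : ℝ) / 8) := ⟨_, rfl⟩
  have hy0 : 0 < y := by
    rw [hy]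
    exact Real.rpow_pos_of_pos hlog _
  have hy8 : y ^ 8 = Real.log ((2 * k : ℕ) : ℝ) := by
    rw [hy, ← Real.rpow_natCast, ← Real.rpow_mul hlog.le]
    norm_num
  rw [← hy]
  by_cases hsmall : y ≤ 24
  · -- the trivial bound
    have h1 : (Q.card : ℝ) ≤ (k.factorial : ℝ) := by
      have h2 := card_le_univ Q
      rw [Fintype.card_perm, Fintype.card_fin] at h2
      exact_mod_cast h2
    have h3 : (1 : ℝ) ≤ (24 / y) ^ (2 * k) := by
      refine one_le_pow₀ ?_
      rw [le_div_iff₀ hy0]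
      linarith
    calc (Q.card : ℝ) ≤ 1 * (k.factorial : ℝ) := by linarith
      _ ≤ _ := mul_le_mul_of_nonneg_right h3 (by positivity)
  · push Not at hsmall
    obtain ⟨x, hx⟩ : ∃ x, x = Real.log k := ⟨_, rfl⟩
    have hlog2 : Real.log ((2 * k : ℕ) : ℝ) = Real.log 2 + x := by
      rw [hx]
      push_cast
      exact Real.log_mul (by norm_num) hkR.ne'
    have hl2 : Real.log 2 ≤ 1 := by
      have := Real.log_le_sub_one_of_pos (by norm_num : (0 : ℝ) < 2)
      linarith
    have hy8big : (24 : ℝ) ^ 8 ≤ y ^ 8 := pow_le_pow_left₀ (by norm_num) hsmall.le 8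
    have hxbig : (1000000 : ℝ) ≤ x := by
      rw [hy8, hlog2] at hy8big
      norm_num at hy8big
      linarith
    have hxy : y ^ 8 ≤ 2 * x := by
      rw [hy8, hlog2]
      linarith
    -- the density
    have hsx : 0 < Real.sqrt x := Real.sqrt_pos.2 (by linarith)
    have hsx2 : Real.sqrt x ^ 2 = x := Real.sq_sqrt (by linarith)
    have hsx1000 : 1000 ≤ Real.sqrt x := by
      rw [Real.le_sqrt' (by norm_num)]
      linarith
    obtain ⟨δ, hδ⟩ : ∃ δ, δ = 200 / Real.sqrt x := ⟨_, rfl⟩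
    have hδ0 : 0 < δ := by
      rw [hδ]
      positivity
    have hδ1 : δ ≤ 1 := by
      rw [hδ, div_le_one hsx]
      linarith
    obtain ⟨θ, hθ⟩ : ∃ θ, θ = Real.sqrt δ := ⟨_, rfl⟩
    have hθ0 : 0 < θ := by
      rw [hθ]
      exact Real.sqrt_pos.2 hδ0
    have hθ2 : θ ^ 2 = δ := by
      rw [hθ]
      exact Real.sq_sqrt hδ0.le
    have hθ1 : θ ≤ 1 := by
      rw [hθ]
      exact Real.sqrt_le_one.2 hδ1
    have hbig : 12288 ≤ (θ ^ 2) ^ 2 * Real.log (θ ^ 2 * k / 16) := by
      rw [hθ2]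
      have e1 : δ ^ 2 = 40000 / x := by
        rw [hδ, div_pow, hsx2]
        norm_num
      have e2 : Real.log (δ * k / 16) = Real.log (25 / 2) + x - Real.log (Real.sqrt x) := by
        have e3 : δ * k / 16 = 25 / 2 * k / Real.sqrt x := by
          rw [hδ]
          field_simp
          ring
        rw [e3, Real.log_div (by positivity) hsx.ne', Real.log_mul (by norm_num) hkR.ne', hx]
      have e4 : 0 ≤ Real.log (25 / 2) := Real.log_nonneg (by norm_num)
      have e5 : Real.log (Real.sqrt x) ≤ Real.sqrt x := by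
        have := Real.log_le_sub_one_of_pos hsx
        linarith
      have e6 : Real.sqrt x ≤ x / 2 := by nlinarith
      have e7 : x / 2 ≤ Real.log (δ * k / 16) := by
        rw [e2]
        linarith
      rw [e1]
      calc (12288 : ℝ) ≤ 40000 / x * (x / 2) := by
            rw [div_mul_div_comm, le_div_iff₀ (by linarith)]
            nlinarith
        _ ≤ _ := mul_le_mul_of_nonneg_left e7 (by
            have : (0 : ℝ) < x := by linarith
            positivity)
    have h5 := count hk0 hθ0 hθ1 hbig Q hQ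
    refine h5.trans (mul_le_mul_of_nonneg_right ?_ (by positivity))
    rw [pow_mul]
    refine pow_le_pow_left₀ (by positivity) ?_ _
    -- e³ θ ≤ (24 / y)²
    have h6 : θ ≤ 20 / y ^ 2 := by
      rw [hθ]
      refine Real.sqrt_le_iff.2 ⟨by positivity, ?_⟩
      rw [hδ, div_pow, ← pow_mul]
      have h7 : y ^ 4 / 2 ≤ Real.sqrt x := by
        refine Real.le_sqrt_of_sq_le ?_
        have : (y ^ 4 / 2) ^ 2 = y ^ 8 / 4 := by ring
        rw [this]
        linarith
      rw [div_le_div_iff₀ hsx (by positivity)]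
      have e8 : y ^ (2 * 2) = y ^ 4 := by norm_num
      rw [e8]
      nlinarith [pow_pos hy0 4]
    have h8 : Real.exp 3 ≤ 27 := by
      have h9 := Real.exp_one_lt_d9
      have h10 : Real.exp 3 = Real.exp 1 ^ 3 := by
        rw [← Real.exp_nat_mul]
        norm_num
      rw [h10]
      calc Real.exp 1 ^ 3 ≤ 3 ^ 3 := pow_le_pow_left₀ (Real.exp_pos _).le (by linarith) 3
        _ = 27 := by norm_num
    calc Real.exp 3 * θ ≤ 27 * (20 / y ^ 2) :=
          mul_le_mul h8 h6 hθ0.le (by norm_num)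
      _ ≤ (24 / y) ^ 2 := by
          rw [div_pow, ← mul_div_assoc]
          gcongr
          norm_num

end Pool.Agent.Lib.MPc99423
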