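import Pool.Agent.Lib.MP_c99423_co.Sat3
import Pool.Agent.Lib.MP_c99423_co.Rare2

set_option autoImplicit false

open Finset

namespace Pool.Agent.Lib.MPc99423.Gen

/-- the bound at the leaves of the last phase -/
theorem last {k : ℕ} (hk : 0 < k) {θ : ℝ} (hθ : 0 < θ) (hθ1 : θ ≤ 1) {F A : Finset (ℤ × ℤ)}
    (hA : A ⊆ Gr k) (hAc : (A.card : ℝ) ≤ θ ^ 2 * (k : ℝ) ^ 2) (hF : 2 * F.card ≤ k)
    (S : Finset (Equiv.Perm (Fin k))) (hS : Adm F A S) :
    (S.card : ℝ) * (k : ℝ) ^ F.card ≤ BB k θ := by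
  have hkR : (0 : ℝ) < k := by exact_mod_cast hk
  rcases S.eq_empty_or_nonempty with hSe | hSne
  · rw [hSe]
    simp only [card_empty, Nat.cast_zero, zero_mul]
    unfold BB
    positivity
  obtain ⟨h4, h5⟩ := leaf hk (by positivity) hA hAc S (fun π hπ => (hS π hπ).1) hSne
  obtain ⟨f, hf⟩ : ∃ f, f = F.card := ⟨_, rfl⟩
  rw [← hf] at h4 h5 hF ⊢
  have h8 : (θ ^ 2 * k) ^ (k - f) = θ ^ (2 * (k - f)) * (k : ℝ) ^ (k - f) := by
    rw [mul_pow, ← pow_mul]
  have h9 : θ ^ (2 * (k - f)) ≤ θ ^ k := pow_le_pow_of_le_one hθ.le hθ1 (by omega)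
  have h10 : (k : ℝ) ^ (k - f) * (k : ℝ) ^ f = (k : ℝ) ^ k := by
    rw [← pow_add]
    congr 1
    omega
  calc (S.card : ℝ) * (k : ℝ) ^ f ≤ ((θ ^ 2 * k) ^ (k - f) * Real.exp k) * (k : ℝ) ^ f :=
        mul_le_mul_of_nonneg_right h4 (by positivity)
    _ = θ ^ (2 * (k - f)) * (Real.exp k * ((k : ℝ) ^ (k - f) * (k : ℝ) ^ f)) := by
        rw [h8]
        ring
    _ = θ ^ (2 * (k - f)) * (Real.exp k * (k : ℝ) ^ k) := by rw [h10]
    _ ≤ θ ^ k * (Real.exp k * (k : ℝ) ^ k) := mul_le_mul_of_nonneg_right h9 (by positivity)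
    _ = BB k θ := by
        unfold BB
        ring

/-- iteration of the phases -/
theorem iter {k : ℕ} (hk : 0 < k) {J N : ℕ} {l θ : ℝ} (hl : 64 ≤ l) (hθ : 0 < θ) (hθ1 : θ ≤ 1)
    (hθ2 : θ ^ 2 = (1 / 2) ^ J)
    (hsat : ∀ δ : ℝ, (1 / 2) ^ J ≤ δ → ∀ A ⊆ Gr k, δ * (k : ℝ) ^ 2 < A.card →
      ∃ v ∈ A, δ ^ 2 * k ^ 2 * l ^ 2 / 128 ≤ (lk (RR (2 ^ J) N) A v : ℝ))
    (hbig : 1 ≤ (1 / 2) ^ J * (k : ℝ)) (hJ : 256 * (J : ℝ) ≤ l) :
    ∀ i ≤ J, ∀ (F A : Finset (ℤ × ℤ)), A ⊆ Gr k → Disjoint F A →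
      (A.card : ℝ) ≤ (1 / 2) ^ (J - i) * (k : ℝ) ^ 2 →
      (F.card : ℝ) ≤ 128 * ((J - i : ℕ) : ℝ) * k / l → ∀ S : Finset (Equiv.Perm (Fin k)),
        Adm F A S → (S.card : ℝ) * (k : ℝ) ^ F.card ≤
          Real.exp (2 * ((1 / 2) ^ (J - i) * k)) * BB k θ := by
  have hkR : (0 : ℝ) < k := by exact_mod_cast hk
  have hl0 : (0 : ℝ) < l := by linarith
  have hBB : 0 < BB k θ := by
    unfold BB
    positivity
  intro i
  induction i with
  | zero =>
    intro _ F A hA _ hAc hFc S hS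
    rw [Nat.sub_zero] at hAc hFc ⊢
    have h1 : (S.card : ℝ) * (k : ℝ) ^ F.card ≤ BB k θ := by
      refine last hk hθ hθ1 hA (by rw [hθ2]; exact hAc) ?_ S hS
      have h2 : 128 * (J : ℝ) * k / l ≤ k / 2 := by
        rw [div_le_div_iff₀ hl0 (by norm_num)]
        nlinarith
      have h3 : 2 * (F.card : ℝ) ≤ k := by linarith
      exact_mod_cast h3
    have h4 : 1 ≤ Real.exp (2 * ((1 / 2) ^ J * k)) := Real.one_le_exp (by positivity)
    calc _ ≤ BB k θ := h1
      _ = 1 * BB k θ := (one_mul _).symm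
      _ ≤ _ := mul_le_mul_of_nonneg_right h4 hBB.le
  | succ i ih =>
    intro hi F A hA hFA hAc hFc S hS
    have ih' := ih (by omega)
    obtain ⟨j, hj⟩ : ∃ j, j = J - (i + 1) := ⟨_, rfl⟩
    have hj1 : J - i = j + 1 := by omega
    have hjJ : j + 1 ≤ J := by omega
    rw [hj1] at ih'
    rw [← hj] at hAc hFc ⊢
    obtain ⟨d, hd⟩ : ∃ d : ℝ, d = (1 / 2) ^ j := ⟨_, rfl⟩
    have hd1 : (1 / 2 : ℝ) ^ (j + 1) = d / 2 := by
      rw [pow_succ, ← hd]
      ring
    have hd0 : 0 < d := by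
      rw [hd]
      positivity
    have hdJ : (1 / 2 : ℝ) ^ J ≤ d / 2 := by
      rw [← hd1]
      exact pow_le_pow_of_le_one (by norm_num) (by norm_num) hjJ
    rw [hd1] at ih'
    rw [← hd] at hAc ⊢
    have hdk : 2 ≤ d * k := by
      have h1 : (1 / 2) ^ J * (k : ℝ) ≤ d / 2 * k := mul_le_mul_of_nonneg_right hdJ hkR.le
      linarith
    have hD0 : 0 < d * k * l / 64 := by positivity
    have hK0 : (0 : ℝ) ≤ (k : ℝ) / (2 ^ J : ℕ) + 1 := by positivity
    have hm0 : 0 < d ^ 2 * k ^ 2 * l ^ 2 / 1024 := by positivity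
    have hKD : (k : ℝ) / (2 ^ J : ℕ) + 1 ≤ d * k * l / 64 := by
      have h1 : (k : ℝ) / (2 ^ J : ℕ) = (1 / 2) ^ J * k := by
        push_cast
        rw [one_div, inv_pow]
        field_simp
      rw [h1]
      have h2 : (1 / 2) ^ J * (k : ℝ) ≤ d / 2 * k := mul_le_mul_of_nonneg_right hdJ hkR.le
      nlinarith
    have hph := phase (k := k) hk (RR (2 ^ J) N) (fun _ _ _ h => RR_swap h) (fun _ _ _ h => h.1)
      (D := d * k * l / 64) (K := (k : ℝ) / (2 ^ J : ℕ) + 1) (m := d ^ 2 * k ^ 2 * l ^ 2 / 1024)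
      (a := d * (k : ℝ) ^ 2) (b := d / 2 * (k : ℝ) ^ 2) (B := Real.exp (2 * (d / 2 * k)) * BB k θ)
      (f := 128 * (j : ℝ) * k / l) hD0 hK0 hm0 (by positivity)
      (fun A' hA' u x => by
        have := codeg (Y := 2 ^ J) (N := N) (by positivity) hA' u x
        convert this)
      (fun A' hA' hb => by
        obtain ⟨v, hv, hlv⟩ := hsat (d / 2) hdJ A' hA' hb
        refine ⟨v, hv, le_trans ?_ hlv⟩
        have h1 : 64 ≤ d * k * l := by nlinarith
        have h2 : 64 * (d * k * l) ≤ (d * k * l) * (d * k * l) :=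
          mul_le_mul_of_nonneg_right h1 (by positivity)
        nlinarith)
      (fun F' A' hA' hFA' hc' hF' S' hS' => by
        refine ih' F' A' hA' hFA' hc' (hF'.trans ?_) S' hS'
        have e1 : d * (k : ℝ) ^ 2 / (d * k * l / 64) = 64 * k / l := by
          field_simp
        have e2 : 2 * (d * k * l / 64 + ((k : ℝ) / (2 ^ J : ℕ) + 1)) * (d * (k : ℝ) ^ 2) /
            (d ^ 2 * k ^ 2 * l ^ 2 / 1024) ≤ 64 * k / l := by
          have e3 : 2 * (d * k * l / 64 + ((k : ℝ) / (2 ^ J : ℕ) + 1)) * (d * (k : ℝ) ^ 2)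
              ≤ 2 * (d * k * l / 64 + d * k * l / 64) * (d * (k : ℝ) ^ 2) := by
            refine mul_le_mul_of_nonneg_right ?_ (by positivity)
            linarith
          refine (div_le_div_of_nonneg_right e3 hm0.le).trans (le_of_eq ?_)
          field_simp
          ring
        rw [e1]
        have e4 : 128 * (((j + 1 : ℕ) : ℕ) : ℝ) * k / l
            = 128 * (j : ℝ) * k / l + 64 * k / l + 64 * k / l := by
          push_cast
          ring
        rw [e4]
        linarith)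
      A.card F ∅ A rfl hA (disjoint_empty_right _) (by rw [union_empty]; exact hFA)
      (fun x _ => by
        rw [dg_eq]
        simp only [sum_empty, Nat.cast_zero]
        linarith)
      (by
        have h1 : (0 : ℝ) ≤ eg (RR (2 ^ J) N) ∅ A := Nat.cast_nonneg _
        have h2 : 0 ≤ 2 * (d * k * l / 64 + ((k : ℝ) / (2 ^ J : ℕ) + 1)) := by linarith
        have h3 := mul_le_mul_of_nonneg_left hAc h2
        simp only [card_empty, Nat.cast_zero, mul_zero, zero_add]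
        linarith)
      (by
        have h1 : d * k * l / 64 * ((F.card : ℝ) - 128 * (j : ℝ) * k / l) ≤ 0 :=
          mul_nonpos_of_nonneg_of_nonpos hD0.le (by linarith)
        linarith)
      S (by rw [union_empty]; exact hS)
    rw [card_empty, add_zero] at hph
    refine hph.trans ?_
    have h5 : 1 + 1 / (k : ℝ) ≤ Real.exp (1 / k) := by
      have := Real.add_one_le_exp (1 / (k : ℝ))
      linarith
    have h6 : (1 + 1 / (k : ℝ)) ^ A.card ≤ Real.exp (d * k) := by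
      calc (1 + 1 / (k : ℝ)) ^ A.card ≤ Real.exp (1 / k) ^ A.card :=
            pow_le_pow_left₀ (by positivity) h5 _
        _ = Real.exp ((A.card : ℝ) * (1 / k)) := (Real.exp_nat_mul _ _).symm
        _ ≤ Real.exp (d * k) := by
            rw [Real.exp_le_exp, mul_one_div, div_le_iff₀ hkR]
            linarith
    calc (1 + 1 / (k : ℝ)) ^ A.card * (Real.exp (2 * (d / 2 * k)) * BB k θ)
        ≤ Real.exp (d * k) * (Real.exp (2 * (d / 2 * k)) * BB k θ) :=
          mul_le_mul_of_nonneg_right h6 (by positivity)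
      _ = Real.exp (2 * (d * k)) * BB k θ := by
          rw [← mul_assoc, ← Real.exp_add]
          congr 2
          ring

/-- the count of permutations without three collinear points in the graph -/
theorem count3 {k : ℕ} (hk0 : 0 < k) (hbig : 1000 ≤ Real.sqrt (Real.log k))
    (Q : Finset (Equiv.Perm (Fin k)))
    (hQ : ∀ π ∈ Q, ∀ p ∈ gr π, ∀ q ∈ gr π, ∀ r ∈ gr π, ¬ T p q r) :
    (Q.card : ℝ) ≤ Real.exp ((5 - Real.sqrt (Real.log k) / 1600) * k) * (k.factorial : ℝ) := by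
  classical
  have hkR : (0 : ℝ) < k := by exact_mod_cast hk0
  obtain ⟨x, hx⟩ : ∃ x, x = Real.log k := ⟨_, rfl⟩
  obtain ⟨t, ht⟩ : ∃ t, t = Real.sqrt x := ⟨_, rfl⟩
  rw [← hx, ← ht] at hbig ⊢
  have hx0 : 0 ≤ x := by
    by_contra hcon
    push Not at hcon
    rw [Real.sqrt_eq_zero'.2 hcon.le] at ht
    linarith
  have hxt : x = t ^ 2 := by
    rw [ht, Real.sq_sqrt hx0]
  have hkx : (k : ℝ) = Real.exp x := by
    rw [hx, Real.exp_log hkR]
  obtain ⟨J, hJ⟩ : ∃ J, J = ⌊t / 512⌋₊ := ⟨_, rfl⟩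
  have hJ1 : (J : ℝ) ≤ t / 512 := by
    rw [hJ]
    exact Nat.floor_le (by positivity)
  have hJ2 : t / 512 < (J : ℝ) + 1 := by
    rw [hJ]
    exact Nat.lt_floor_add_one _
  have hJx : (J : ℝ) ≤ x / 100 := by nlinarith
  have hJ0 : (0 : ℝ) ≤ J := Nat.cast_nonneg _
  have hx1 : (1000000 : ℝ) ≤ x := by nlinarith
  have he2 : (2 : ℝ) ≤ Real.exp 1 := by
    have := Real.add_one_le_exp (1 : ℝ)
    linarith
  have h2J : (2 : ℝ) ^ J ≤ Real.exp J := by
    have h1 : Real.exp (J : ℝ) = Real.exp 1 ^ J := by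
      rw [← Real.exp_nat_mul, mul_one]
    rw [h1]
    exact pow_le_pow_left₀ (by norm_num) he2 J
  have hhJ : Real.exp (-(J : ℝ)) ≤ (1 / 2) ^ J := by
    rw [Real.exp_neg, one_div, inv_pow]
    exact inv_anti₀ (by positivity) h2J
  have hE : Real.exp (x - J) ≤ (1 / 2) ^ J * k := by
    rw [sub_eq_add_neg, Real.exp_add, hkx, mul_comm]
    exact mul_le_mul_of_nonneg_right hhJ (Real.exp_pos _).le
  have hE1 : Real.exp (x / 2) ≤ (1 / 2) ^ J * k :=
    le_trans (Real.exp_le_exp.2 (by linarith)) hE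
  obtain ⟨N, hN⟩ : ∃ N, N = ⌊(1 / 2) ^ J * (k : ℝ) / 16⌋₊ := ⟨_, rfl⟩
  have hN1 : (N : ℝ) ≤ (1 / 2) ^ J * k / 16 := by
    rw [hN]
    exact Nat.floor_le (by positivity)
  have hN2 : (1 / 2) ^ J * (k : ℝ) / 16 < (N : ℝ) + 1 := by
    rw [hN]
    exact Nat.lt_floor_add_one _
  have h16 : (16 : ℝ) ≤ Real.exp 4 := by
    have h1 : Real.exp 4 = Real.exp 1 ^ 4 := by
      rw [← Real.exp_nat_mul]
      norm_num
    rw [h1]
    calc (16 : ℝ) = 2 ^ 4 := by norm_num
      _ ≤ _ := pow_le_pow_left₀ (by norm_num) he2 4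
  have hYN : 2 ^ J ≤ N := by
    rw [hN]
    refine Nat.le_floor ?_
    push_cast
    rw [le_div_iff₀ (by norm_num)]
    calc (2 : ℝ) ^ J * 16 ≤ Real.exp J * Real.exp 4 :=
          mul_le_mul h2J h16 (by norm_num) (Real.exp_pos _).le
      _ = Real.exp (J + 4) := (Real.exp_add _ _).symm
      _ ≤ Real.exp (x / 2) := Real.exp_le_exp.2 (by linarith)
      _ ≤ _ := hE1
  have hw := weight (2 ^ J) N hYN
  have hΛ : (t / 2) ^ 2 ≤ ∑ b ∈ (Icc 1 N).filter (fun b => 2 ^ J < b),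
      (Nat.totient b : ℝ) / (b : ℝ) ^ 2 := by
    refine le_trans ?_ hw
    have h1 : Real.log ((2 ^ J : ℕ) : ℝ) ≤ J := by
      have h2 := Real.log_le_log (by positivity) h2J
      rw [Real.log_exp] at h2
      push_cast
      exact h2
    have h3 : x - J - 4 ≤ Real.log ((N : ℝ) + 1) := by
      rw [Real.le_log_iff_exp_le (by positivity)]
      have h4 : Real.exp (x - J - 4) = Real.exp (x - J) / Real.exp 4 := Real.exp_sub _ _
      rw [h4]
      refine le_trans ?_ hN2.le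
      calc Real.exp (x - J) / Real.exp 4 ≤ (1 / 2) ^ J * k / Real.exp 4 :=
            div_le_div_of_nonneg_right hE (Real.exp_pos _).le
        _ ≤ (1 / 2) ^ J * k / 16 :=
            div_le_div_of_nonneg_left (by positivity) (by norm_num) h16
    have h5 : (t / 2) ^ 2 = x / 4 := by
      rw [hxt]
      ring
    rw [h5]
    linarith
  obtain ⟨θ, hθ⟩ : ∃ θ, θ = Real.sqrt ((1 / 2) ^ J) := ⟨_, rfl⟩
  have hθ0 : 0 < θ := by
    rw [hθ]
    exact Real.sqrt_pos.2 (by positivity)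
  have hθ1 : θ ≤ 1 := by
    rw [hθ]
    exact Real.sqrt_le_one.2 (pow_le_one₀ (by norm_num) (by norm_num))
  have hθ2 : θ ^ 2 = (1 / 2) ^ J := by
    rw [hθ]
    exact Real.sq_sqrt (by positivity)
  have hit := iter hk0 (J := J) (N := N) (l := t / 2) (θ := θ) (by linarith) hθ0 hθ1 hθ2
    (fun δ hδ A hA hc => by
      have hδ0 : 0 < δ := lt_of_lt_of_le (by positivity) hδ
      have h1 := sat3 hδ0 hk0 (Y := 2 ^ J) (N := N) (Λ := (t / 2) ^ 2) (by
        have h2 : (1 / 2) ^ J * (k : ℝ) ≤ δ * k := mul_le_mul_of_nonneg_right hδ hkR.le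
        linarith) hΛ A hA hc
      exact h1)
    (le_trans (Real.one_le_exp (by linarith)) hE1) (by linarith)
    J le_rfl ∅ (Gr k) (Finset.Subset.refl _) (disjoint_empty_left _) (by
      rw [card_Gr, Nat.sub_self, pow_zero, one_mul]
      push_cast
      exact le_of_eq (by ring)) (by
      rw [card_empty, Nat.sub_self]
      simp) Q (by
      intro π hπ
      refine ⟨⟨by simp, ?_⟩, hQ π hπ⟩
      intro p hp
      exact mem_union_right _ (gr_sub _ hp))
  rw [card_empty, pow_zero, mul_one, Nat.sub_self, pow_zero, one_mul] at hit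
  have h6 : (k : ℝ) ^ k ≤ Real.exp k * (k.factorial : ℝ) := by
    have h7 := Real.pow_div_factorial_le_exp (k : ℝ) hkR.le k
    rw [div_le_iff₀ (by positivity)] at h7
    exact h7
  have hθe : θ ≤ Real.exp (-(0.34 * J)) := by
    rw [hθ]
    refine Real.sqrt_le_iff.2 ⟨(Real.exp_pos _).le, ?_⟩
    rw [← Real.exp_nat_mul]
    have h8 : ((2 : ℕ) : ℝ) * -(0.34 * J) = (J : ℝ) * (-0.68) := by
      push_cast
      ring
    rw [h8, Real.exp_nat_mul]
    refine pow_le_pow_left₀ (by norm_num) ?_ J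
    rw [← Real.log_le_iff_le_exp (by norm_num)]
    have h9 := Real.log_two_gt_d9
    rw [one_div, Real.log_inv]
    linarith
  have hθk : θ ^ k ≤ Real.exp ((1 - t / 1600) * k) := by
    calc θ ^ k ≤ Real.exp (-(0.34 * J)) ^ k := pow_le_pow_left₀ hθ0.le hθe k
      _ = Real.exp ((k : ℝ) * -(0.34 * J)) := (Real.exp_nat_mul _ _).symm
      _ ≤ _ := by
          rw [Real.exp_le_exp, mul_comm]
          refine mul_le_mul_of_nonneg_right ?_ hkR.le
          linarith
  calc (Q.card : ℝ) ≤ Real.exp (2 * k) * BB k θ := hit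
    _ = Real.exp (2 * k) * (Real.exp k * (k : ℝ) ^ k * θ ^ k) := rfl
    _ ≤ Real.exp (2 * k) * (Real.exp k * (Real.exp k * (k.factorial : ℝ)) *
          Real.exp ((1 - t / 1600) * k)) := by
        gcongr
    _ = (Real.exp (2 * k) * Real.exp k * Real.exp k * Real.exp ((1 - t / 1600) * k)) *
          (k.factorial : ℝ) := by ring
    _ = Real.exp ((5 - t / 1600) * k) * (k.factorial : ℝ) := by
        rw [← Real.exp_add, ← Real.exp_add, ← Real.exp_add]
        congr 2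
        ring

/-- the number of solutions with the symmetry of a rectangle -/
theorem rare3 (n : ℕ) (F : Finset (Finset (ℤ × ℤ))) (hF : ∀ S ∈ F, RectSol n S) :
    (F.card : ℝ) ≤ Real.exp ((3 - Real.sqrt (Real.log n) / 4000) * n) *
      ((n / 2).factorial : ℝ) := by
  classical
  rcases Nat.even_or_odd n with he | ho
  swap
  · have h1 : F = ∅ := by
      rw [eq_empty_iff_forall_notMem]
      intro S hS
      exact not_odd ho S (hF S hS)
    rw [h1]
    simp only [card_empty, Nat.cast_zero]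
    positivity
  obtain ⟨k, hk⟩ := he
  have hk2 : n = 2 * k := by omega
  subst hk2
  have hdiv : 2 * k / 2 = k := by omega
  rw [hdiv]
  obtain ⟨Q, hQc, hQ⟩ := perms F hF
  rw [← hQc]
  obtain ⟨s, hs⟩ : ∃ s, s = Real.sqrt (Real.log ((2 * k : ℕ) : ℝ)) := ⟨_, rfl⟩
  rw [← hs]
  by_cases hsmall : s ≤ 12000
  · -- the trivial bound
    have h1 : (Q.card : ℝ) ≤ (k.factorial : ℝ) := by
      have h2 := card_le_univ Q
      rw [Fintype.card_perm, Fintype.card_fin] at h2
      exact_mod_cast h2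
    have h3 : (1 : ℝ) ≤ Real.exp ((3 - s / 4000) * ((2 * k : ℕ) : ℝ)) := by
      refine Real.one_le_exp (mul_nonneg ?_ (Nat.cast_nonneg _))
      linarith
    calc (Q.card : ℝ) ≤ 1 * (k.factorial : ℝ) := by linarith
      _ ≤ _ := mul_le_mul_of_nonneg_right h3 (by positivity)
  · push Not at hsmall
    have hk0 : 0 < k := by
      rcases Nat.eq_zero_or_pos k with h0 | h0
      · rw [h0] at hs
        simp at hs
        linarith
      · exact h0
    have hkR : (0 : ℝ) < k := by exact_mod_cast hk0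
    have hlog2 : Real.log ((2 * k : ℕ) : ℝ) = Real.log 2 + Real.log k := by
      push_cast
      exact Real.log_mul (by norm_num) hkR.ne'
    have hl2 : Real.log 2 ≤ 1 := by
      have := Real.log_le_sub_one_of_pos (by norm_num : (0 : ℝ) < 2)
      linarith
    have hs0 : 0 ≤ Real.log ((2 * k : ℕ) : ℝ) := Real.log_natCast_nonneg _
    have hs2 : s ^ 2 = Real.log ((2 * k : ℕ) : ℝ) := by
      rw [hs]
      exact Real.sq_sqrt hs0
    have hst : s - 1 ≤ Real.sqrt (Real.log k) := by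
      refine Real.le_sqrt_of_sq_le ?_
      have : (s - 1) ^ 2 = s ^ 2 - 2 * s + 1 := by ring
      rw [this, hs2, hlog2]
      linarith
    have h5 := count3 hk0 (by linarith) Q hQ
    refine h5.trans (mul_le_mul_of_nonneg_right ?_ (by positivity))
    rw [Real.exp_le_exp]
    push_cast
    have h6 : (3 - s / 4000) * (2 * (k : ℝ)) = (6 - s / 2000) * k := by ring
    rw [h6]
    refine mul_le_mul_of_nonneg_right ?_ hkR.le
    linarith

end Pool.Agent.Lib.MPc99423.Gen
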