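import Pool.Agent.Lib.MP_c99423_co.Tree

set_option autoImplicit false

open Finset

namespace Pool.Agent.Lib.MPc99423

/-- `S` is a solution for `n` with the symmetry of a rectangle: `2 n` points of the `n × n` grid, no
three collinear, invariant under the reflections in the two midlines. -/
def RectSol (n : ℕ) (S : Finset (ℤ × ℤ)) : Prop :=
  (∀ p ∈ S, 0 ≤ p.1 ∧ p.1 < (n : ℤ) ∧ 0 ≤ p.2 ∧ p.2 < (n : ℤ)) ∧
  S.card = 2 * n ∧
  (∀ p ∈ S, ∀ q ∈ S, ∀ r ∈ S, p ≠ q → p ≠ r → q ≠ r →
    (q.1 - p.1) * (r.2 - p.2) ≠ (q.2 - p.2) * (r.1 - p.1)) ∧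
  (∀ p ∈ S, ((n : ℤ) - 1 - p.1, p.2) ∈ S) ∧
  (∀ p ∈ S, (p.1, (n : ℤ) - 1 - p.2) ∈ S)

theorem RectSol.swap {n : ℕ} {S : Finset (ℤ × ℤ)} (h : RectSol n S) :
    RectSol n (S.image Prod.swap) := by
  classical
  obtain ⟨h1, h2, h3, h4, h5⟩ := h
  have hm : ∀ p : ℤ × ℤ, p ∈ S.image Prod.swap ↔ (p.2, p.1) ∈ S := by
    intro p
    rw [mem_image]
    constructor
    · rintro ⟨a, ha, rfl⟩
      exact ha
    · intro hp
      exact ⟨(p.2, p.1), hp, rfl⟩
  refine ⟨?_, ?_, ?_, ?_, ?_⟩
  · intro p hp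
    have := h1 _ ((hm p).1 hp)
    exact ⟨this.2.2.1, this.2.2.2, this.1, this.2.1⟩
  · rw [card_image_of_injective _ Prod.swap_injective, h2]
  · intro p hp q hq r hr hpq hpr hqr he
    refine h3 _ ((hm p).1 hp) _ ((hm q).1 hq) _ ((hm r).1 hr) ?_ ?_ ?_ ?_
    · intro h
      rw [Prod.mk.injEq] at h
      exact hpq (Prod.ext h.2 h.1)
    · intro h
      rw [Prod.mk.injEq] at h
      exact hpr (Prod.ext h.2 h.1)
    · intro h
      rw [Prod.mk.injEq] at h
      exact hqr (Prod.ext h.2 h.1)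
    · simp only
      linarith
  · intro p hp
    rw [hm]
    exact h5 _ ((hm p).1 hp)
  · intro p hp
    rw [hm]
    exact h4 _ ((hm p).1 hp)

/-- every column contains two points -/
theorem RectSol.column {n : ℕ} {S : Finset (ℤ × ℤ)} (h : RectSol n S) {x : ℤ} (h0 : 0 ≤ x)
    (hx : x < n) : (S.filter (fun p => p.1 = x)).card = 2 := by
  classical
  obtain ⟨h1, h2, h3, h4, h5⟩ := h
  have hle : ∀ x : ℤ, (S.filter (fun p => p.1 = x)).card ≤ 2 := by
    intro x
    by_contra hlt
    push Not at hlt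
    obtain ⟨p, hp, q, hq, r, hr, hpq, hpr, hqr⟩ := two_lt_card.1 hlt
    rw [mem_filter] at hp hq hr
    refine h3 p hp.1 q hq.1 r hr.1 hpq hpr hqr ?_
    rw [hp.2, hq.2, hr.2]
    ring
  have hsum : ∑ x ∈ Finset.Ico (0 : ℤ) n, (S.filter (fun p => p.1 = x)).card
      = ∑ _x ∈ Finset.Ico (0 : ℤ) n, 2 := by
    rw [← card_eq_sum_card_fiberwise (f := Prod.fst), h2, sum_const, Int.card_Ico, smul_eq_mul]
    · simp
      ring
    · intro p hp
      have := h1 p hp
      rw [mem_coe, Finset.mem_Ico]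
      exact ⟨this.1, this.2.1⟩
  exact (sum_eq_sum_iff_of_le (fun x _ => hle x)).1 hsum x (Finset.mem_Ico.2 ⟨h0, hx⟩)

theorem RectSol.row {n : ℕ} {S : Finset (ℤ × ℤ)} (h : RectSol n S) {y : ℤ} (h0 : 0 ≤ y)
    (hy : y < n) : (S.filter (fun p => p.2 = y)).card = 2 := by
  classical
  have h1 := h.swap.column h0 hy
  rw [← h1]
  refine card_bij (fun p _ => Prod.swap p) ?_ ?_ ?_
  · intro p hp
    rw [mem_filter] at hp ⊢
    exact ⟨mem_image_of_mem _ hp.1, hp.2⟩
  · intro p _ q _ hpq
    exact Prod.swap_injective hpq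
  · intro p hp
    rw [mem_filter, mem_image] at hp
    obtain ⟨⟨a, ha, hap⟩, hp2⟩ := hp
    refine ⟨a, ?_, hap⟩
    rw [mem_filter]
    refine ⟨ha, ?_⟩
    rw [← hap] at hp2
    exact hp2

/-- there is no such solution if `n` is odd -/
theorem not_odd {n : ℕ} (hn : Odd n) (S : Finset (ℤ × ℤ)) : ¬ RectSol n S := by
  intro h
  obtain ⟨k, hk⟩ := hn
  have hc := h.column (x := (k : ℤ)) (by positivity) (by rw [hk]; push_cast; omega)
  have hne : (S.filter (fun p => p.1 = (k : ℤ))).Nonempty := by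
    rw [← card_pos, hc]
    norm_num
  obtain ⟨p, hp⟩ := hne
  rw [mem_filter] at hp
  obtain ⟨hpS, hpk⟩ := hp
  have hg := h.1 p hpS
  have hr := h.row hg.2.2.1 hg.2.2.2
  have hex : ∃ q ∈ S.filter (fun q => q.2 = p.2), q ≠ p := by
    refine exists_mem_ne ?_ p
    rw [hr]
    norm_num
  obtain ⟨q, hq, hqp⟩ := hex
  rw [mem_filter] at hq
  obtain ⟨h1, h2, h3, h4, h5⟩ := h
  have hq' := h4 q hq.1
  have hqx : q.1 ≠ p.1 := fun he => hqp (Prod.ext he hq.2)
  refine h3 p hpS q hq.1 _ hq' hqp.symm ?_ ?_ ?_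
  · intro he
    have := congrArg Prod.fst he
    simp only at this
    omega
  · intro he
    have := congrArg Prod.fst he
    simp only at this
    omega
  · simp only
    rw [hq.2]
    ring

/-- the permutation given by the points of a quadrant -/
theorem exists_perm {k : ℕ} {S : Finset (ℤ × ℤ)} (h : RectSol (2 * k) S) :
    ∃ π : Equiv.Perm (Fin k), (∀ p ∈ gr π, ∀ q ∈ gr π, ∀ r ∈ gr π, ¬ T p q r) ∧
      (∀ i : Fin k, ((i : ℤ), (π i : ℤ)) ∈ S) ∧
      ∀ i y : Fin k, ((i : ℤ), (y : ℤ)) ∈ S → y = π i := by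
  have hcol := fun (x : ℤ) (h0 : 0 ≤ x) (hx : x < ((2 * k : ℕ) : ℤ)) => h.column h0 hx
  obtain ⟨h1, h2, h3, h4, h5⟩ := h
  have hex : ∀ i : Fin k, ∃ y : Fin k, ((i : ℤ), (y : ℤ)) ∈ S := by
    intro i
    have hik := i.2
    have hc := hcol (i : ℤ) (by positivity) (by push_cast; omega)
    have hne : (S.filter (fun p => p.1 = (i : ℤ))).Nonempty := by
      rw [← card_pos, hc]
      norm_num
    obtain ⟨p, hp⟩ := hne
    rw [mem_filter] at hp
    obtain ⟨hpS, hpk⟩ := hp
    have hg := h1 p hpS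
    push_cast at hg
    by_cases hlt : p.2 < k
    · refine ⟨⟨p.2.toNat, by omega⟩, ?_⟩
      have : (((⟨p.2.toNat, by omega⟩ : Fin k) : ℕ) : ℤ) = p.2 := by
        show ((p.2.toNat : ℕ) : ℤ) = p.2
        omega
      rw [this, ← hpk]
      exact hpS
    · have hp' := h5 p hpS
      refine ⟨⟨(2 * (k : ℤ) - 1 - p.2).toNat, by omega⟩, ?_⟩
      have : (((⟨(2 * (k : ℤ) - 1 - p.2).toNat, by omega⟩ : Fin k) : ℕ) : ℤ)
          = ((2 * k : ℕ) : ℤ) - 1 - p.2 := by
        show (((2 * (k : ℤ) - 1 - p.2).toNat : ℕ) : ℤ) = _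
        push_cast
        omega
      rw [this, ← hpk]
      exact hp'
  choose f hf using hex
  have huniq : ∀ i y : Fin k, ((i : ℤ), (y : ℤ)) ∈ S → y = f i := by
    intro i y hy
    by_contra hne
    have hy' := h5 _ hy
    have hik := i.2
    have hyk := y.2
    have hfk := (f i).2
    have hne' : (y : ℕ) ≠ (f i : ℕ) := fun he => hne (Fin.ext he)
    refine h3 _ hy _ (hf i) _ hy' ?_ ?_ ?_ ?_
    · intro he
      have := congrArg Prod.snd he
      simp only at this
      omega
    · intro he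
      have := congrArg Prod.snd he
      simp only at this
      push_cast at this
      omega
    · intro he
      have := congrArg Prod.snd he
      simp only at this
      push_cast at this
      omega
    · simp
  have hinj : Function.Injective f := by
    intro i j hij
    by_contra hne
    have hi := hf i
    have hj := hf j
    have hi' := h4 _ hi
    have hik := i.2
    have hjk := j.2
    have hne' : (i : ℕ) ≠ (j : ℕ) := fun he => hne (Fin.ext he)
    refine h3 _ hi _ hj _ hi' ?_ ?_ ?_ ?_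
    · intro he
      have := congrArg Prod.fst he
      simp only at this
      omega
    · intro he
      have := congrArg Prod.fst he
      simp only at this
      push_cast at this
      omega
    · intro he
      have := congrArg Prod.fst he
      simp only at this
      push_cast at this
      omega
    · rw [hij]
      simp
  have hbij : Function.Bijective f := Finite.injective_iff_bijective.1 hinj
  refine ⟨Equiv.ofBijective f hbij, ?_, hf, huniq⟩
  have hsub : ∀ p ∈ gr (Equiv.ofBijective f hbij), p ∈ S := by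
    intro p hp
    obtain ⟨i, rfl⟩ := mem_gr.1 hp
    exact hf i
  rintro p hp q hq r hr ⟨g1, g2, g3, g4⟩
  exact h3 p (hsub p hp) q (hsub q hq) r (hsub r hr) g1 g2 g3 g4

/-- the set is determined by the permutation -/
theorem determined {k : ℕ} {S S' : Finset (ℤ × ℤ)} (h : RectSol (2 * k) S)
    (h' : RectSol (2 * k) S') (π : Equiv.Perm (Fin k))
    (hS : ∀ i y : Fin k, ((i : ℤ), (y : ℤ)) ∈ S → y = π i)
    (hS' : ∀ i : Fin k, ((i : ℤ), (π i : ℤ)) ∈ S') : S ⊆ S' := by
  obtain ⟨h1, h2, h3, h4, h5⟩ := h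
  obtain ⟨h1', h2', h3', h4', h5'⟩ := h'
  have quad : ∀ x y : ℤ, 0 ≤ x → x < k → 0 ≤ y → y < k → (x, y) ∈ S → (x, y) ∈ S' := by
    intro x y hx hxk hy hyk hxy
    have e1 : (((⟨x.toNat, by omega⟩ : Fin k) : ℕ) : ℤ) = x := by
      show ((x.toNat : ℕ) : ℤ) = x
      omega
    have e2 : (((⟨y.toNat, by omega⟩ : Fin k) : ℕ) : ℤ) = y := by
      show ((y.toNat : ℕ) : ℤ) = y
      omega
    have h6 := hS ⟨x.toNat, by omega⟩ ⟨y.toNat, by omega⟩ (by rw [e1, e2]; exact hxy)
    have h7 := hS' ⟨x.toNat, by omega⟩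
    rw [← h6, e1, e2] at h7
    exact h7
  have half : ∀ x y : ℤ, 0 ≤ x → x < k → 0 ≤ y → y < 2 * k → (x, y) ∈ S → (x, y) ∈ S' := by
    intro x y hx hxk hy hyk hxy
    by_cases hlt : y < k
    · exact quad x y hx hxk hy hlt hxy
    · have h6 := h5 _ hxy
      have h7 := quad _ _ hx hxk (by push_cast; omega) (by push_cast; omega) h6
      have h8 := h5' _ h7
      simp only at h8
      have e : ((2 * k : ℕ) : ℤ) - 1 - (((2 * k : ℕ) : ℤ) - 1 - y) = y := by ring
      rw [e] at h8
      exact h8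
  rintro ⟨x, y⟩ hxy
  have hg := h1 _ hxy
  simp only at hg
  push_cast at hg
  by_cases hlt : x < k
  · exact half x y hg.1 hlt hg.2.2.1 (by omega) hxy
  · have h6 := h4 _ hxy
    have h7 := half _ _ (by push_cast; omega) (by push_cast; omega) hg.2.2.1 (by omega) h6
    have h8 := h4' _ h7
    simp only at h8
    have e : ((2 * k : ℕ) : ℤ) - 1 - (((2 * k : ℕ) : ℤ) - 1 - x) = x := by ring
    rw [e] at h8
    exact h8

/-- solutions with the symmetry of a rectangle are superexponentially rare -/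
theorem rare {ε : ℝ} (hε : 0 < ε) : ∃ N : ℕ, ∀ n : ℕ, N ≤ n → ∀ F : Finset (Finset (ℤ × ℤ)),
    (∀ S ∈ F, RectSol n S) → (F.card : ℝ) ≤ ε ^ n * ((n / 2).factorial : ℝ) := by
  classical
  -- choice of the density
  obtain ⟨θ, hθ, hθ1, hθε⟩ : ∃ θ : ℝ, 0 < θ ∧ θ ≤ 1 ∧ Real.exp 3 * θ ≤ ε ^ 2 := by
    refine ⟨min 1 (ε ^ 2 / Real.exp 3), lt_min one_pos (by positivity), min_le_left _ _, ?_⟩
    calc Real.exp 3 * min 1 (ε ^ 2 / Real.exp 3) ≤ Real.exp 3 * (ε ^ 2 / Real.exp 3) :=
          mul_le_mul_of_nonneg_left (min_le_right _ _) (Real.exp_pos _).le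
      _ = ε ^ 2 := by
          field_simp
  obtain ⟨k₀, hk₀⟩ := sat (δ := θ ^ 2) (by positivity)
  refine ⟨2 * k₀ + 2, ?_⟩
  intro n hn F hF
  rcases Nat.even_or_odd n with he | ho
  · obtain ⟨k, hk⟩ := he
    have hk2 : n = 2 * k := by omega
    subst hk2
    have hdiv : 2 * k / 2 = k := by omega
    rw [hdiv]
    have hk0 : 0 < k := by omega
    have hkR : (0 : ℝ) < k := by exact_mod_cast hk0
    choose! P hP using fun S (hS : S ∈ F) => exists_perm (hF S hS)
    have hinj : Set.InjOn P (F : Set (Finset (ℤ × ℤ))) := by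
      intro S hS S' hS' he
      have h1 := hP S hS
      have h2 := hP S' hS'
      refine Finset.Subset.antisymm ?_ ?_
      · exact determined (hF S hS) (hF S' hS') (P S) h1.2.2 (by rw [he]; exact h2.2.1)
      · exact determined (hF S' hS') (hF S hS) (P S') h2.2.2 (by rw [← he]; exact h1.2.1)
    have h3 := tree hk0 hθ hθ1 (hk₀ k (by omega) hk0) (k * k) ∅ ∅ (Gr k) (card_Gr k)
      (Finset.Subset.refl _) (disjoint_empty_left _) (by simp) (by
        intro x _
        rw [deg_eq]
        simp) (by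
        rw [card_Gr]
        simp) (by
        rw [card_Gr]
        simp) (F.image P) (by
        intro π hπ
        rw [mem_image] at hπ
        obtain ⟨S, hS, rfl⟩ := hπ
        refine ⟨⟨by simp, ?_⟩, (hP S hS).1⟩
        intro p hp
        exact mem_union_right _ (gr_sub _ hp))
    rw [card_image_of_injOn hinj, card_empty, add_zero, pow_zero, mul_one] at h3
    have h4 : (1 + 1 / (k : ℝ)) ^ (k * k) ≤ Real.exp k := by
      have h5 : 1 + 1 / (k : ℝ) ≤ Real.exp (1 / k) := by
        have := Real.add_one_le_exp (1 / (k : ℝ))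
        linarith
      calc (1 + 1 / (k : ℝ)) ^ (k * k) ≤ Real.exp (1 / k) ^ (k * k) :=
            pow_le_pow_left₀ (by positivity) h5 _
        _ = Real.exp (((k * k : ℕ) : ℝ) * (1 / k)) := (Real.exp_nat_mul _ _).symm
        _ = Real.exp k := by
            congr 1
            push_cast
            field_simp
    have h6 : (k : ℝ) ^ k ≤ Real.exp k * (k.factorial : ℝ) := by
      have h7 := Real.pow_div_factorial_le_exp (k : ℝ) hkR.le k
      rw [div_le_iff₀ (by positivity)] at h7
      exact h7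
    calc (F.card : ℝ) ≤ (1 + 1 / (k : ℝ)) ^ (k * k) * BB k θ := h3
      _ ≤ Real.exp k * BB k θ := by
          refine mul_le_mul_of_nonneg_right h4 ?_
          unfold BB
          positivity
      _ = Real.exp k * (Real.exp k * (k : ℝ) ^ k * θ ^ k) := rfl
      _ ≤ Real.exp k * (Real.exp k * (Real.exp k * (k.factorial : ℝ)) * θ ^ k) := by
          gcongr
      _ = (Real.exp 3 * θ) ^ k * (k.factorial : ℝ) := by
          rw [mul_pow, ← Real.exp_nat_mul]
          have h8 : Real.exp ((k : ℝ) * 3) = Real.exp k * (Real.exp k * Real.exp k) := by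
            rw [← Real.exp_add, ← Real.exp_add]
            congr 1
            ring
          rw [h8]
          ring
      _ ≤ (ε ^ 2) ^ k * (k.factorial : ℝ) := by
          refine mul_le_mul_of_nonneg_right ?_ (by positivity)
          exact pow_le_pow_left₀ (by positivity) hθε _
      _ = ε ^ (2 * k) * (k.factorial : ℝ) := by rw [← pow_mul]
  · have h1 : F = ∅ := by
      rw [eq_empty_iff_forall_notMem]
      intro S hS
      exact not_odd ho S (hF S hS)
    rw [h1]
    simp only [card_empty, Nat.cast_zero]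
    positivity

end Pool.Agent.Lib.MPc99423
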