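import Pool.Agent.Lib.MP_c99423_co.Col

set_option autoImplicit false

open Finset

namespace Pool.Agent.Lib.MPc99423

/-- the linear form which is constant on the lines of direction `(a, p)` -/
def lf (p a : ℕ) (v : ℤ × ℤ) : ℤ := (p : ℤ) * v.1 - (a : ℤ) * v.2

/-- pairs on the line of direction `(a, p)` through `v` -/
def Sd (A : Finset (ℤ × ℤ)) (p a : ℕ) (v : ℤ × ℤ) : Finset ((ℤ × ℤ) × (ℤ × ℤ)) :=
  ((A.filter (fun x => lf p a x = lf p a v)).erase v).offDiag

theorem mem_Sd {A : Finset (ℤ × ℤ)} {p a : ℕ} {v : ℤ × ℤ} {b : (ℤ × ℤ) × (ℤ × ℤ)} :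
    b ∈ Sd A p a v ↔ (b.1 ∈ A ∧ b.1 ≠ v ∧ lf p a b.1 = lf p a v) ∧
      (b.2 ∈ A ∧ b.2 ≠ v ∧ lf p a b.2 = lf p a v) ∧ b.1 ≠ b.2 := by
  rw [Sd, mem_offDiag, mem_erase, mem_filter, mem_erase, mem_filter]
  tauto

theorem Sd_sub {A : Finset (ℤ × ℤ)} {p a : ℕ} (hp : 0 < p) (v : ℤ × ℤ) :
    Sd A p a v ⊆ (A ×ˢ A).filter (fun b => T v b.1 b.2) := by
  intro b hb
  obtain ⟨⟨h1, h2, h3⟩, ⟨h4, h5, h6⟩, h7⟩ := mem_Sd.1 hb
  rw [mem_filter, mem_product]
  refine ⟨⟨h1, h4⟩, h2.symm, h5.symm, h7, ?_⟩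
  unfold lf at h3 h6
  have hp' : (p : ℤ) ≠ 0 := by exact_mod_cast hp.ne'
  have e1 : (p : ℤ) * (b.1.1 - v.1) = a * (b.1.2 - v.2) := by linarith
  have e2 : (p : ℤ) * (b.2.1 - v.1) = a * (b.2.2 - v.2) := by linarith
  refine mul_left_cancel₀ hp' ?_
  calc (p : ℤ) * ((b.1.1 - v.1) * (b.2.2 - v.2)) = (p * (b.1.1 - v.1)) * (b.2.2 - v.2) := by ring
    _ = (b.1.2 - v.2) * (a * (b.2.2 - v.2)) := by
        rw [e1]
        ring
    _ = p * ((b.1.2 - v.2) * (b.2.1 - v.1)) := by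
        rw [← e2]
        ring

/-- the directions -/
def Dir (P : Finset ℕ) : Finset (ℕ × ℕ) :=
  P.biUnion (fun p => (Finset.Ico 1 p).image (fun a => (p, a)))

theorem mem_Dir {P : Finset ℕ} {d : ℕ × ℕ} : d ∈ Dir P ↔ d.1 ∈ P ∧ 1 ≤ d.2 ∧ d.2 < d.1 := by
  simp only [Dir, mem_biUnion, mem_image, Finset.mem_Ico]
  constructor
  · rintro ⟨p, hp, a, ⟨h1, h2⟩, rfl⟩
    exact ⟨hp, h1, h2⟩
  · rintro ⟨h1, h2, h3⟩
    exact ⟨d.1, h1, d.2, ⟨h2, h3⟩, rfl⟩

theorem Sd_disj {A : Finset (ℤ × ℤ)} {P : Finset ℕ} (hP : ∀ p ∈ P, p.Prime) (v : ℤ × ℤ) :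
    ((Dir P : Finset (ℕ × ℕ)) : Set (ℕ × ℕ)).PairwiseDisjoint (fun d => Sd A d.1 d.2 v) := by
  intro d hd d' hd' hne
  rw [mem_coe, mem_Dir] at hd hd'
  show Disjoint (Sd A d.1 d.2 v) (Sd A d'.1 d'.2 v)
  rw [Finset.disjoint_left]
  intro b hb hb'
  obtain ⟨⟨_, h2, h3⟩, _⟩ := mem_Sd.1 hb
  obtain ⟨⟨_, _, h4⟩, _⟩ := mem_Sd.1 hb'
  refine hne ?_
  unfold lf at h3 h4
  obtain ⟨p, a⟩ := d
  obtain ⟨p', a'⟩ := d'
  simp only at hd hd' h3 h4
  have hp := hP p hd.1
  have hp' := hP p' hd'.1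
  have hp0 : (0 : ℤ) < p := by exact_mod_cast hp.pos
  have hp0' : (0 : ℤ) < p' := by exact_mod_cast hp'.pos
  have e1 : (p : ℤ) * (b.1.1 - v.1) = a * (b.1.2 - v.2) := by linarith
  have e2 : (p' : ℤ) * (b.1.1 - v.1) = a' * (b.1.2 - v.2) := by linarith
  have hy : b.1.2 - v.2 ≠ 0 := by
    intro h
    rw [h, mul_zero] at e1
    have h5 := (mul_eq_zero.1 e1).resolve_left hp0.ne'
    exact h2 (Prod.ext (by linarith) (by linarith))
  have e3 : (p : ℤ) * a' = p' * a := by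
    refine mul_right_cancel₀ hy ?_
    calc (p : ℤ) * a' * (b.1.2 - v.2) = p * (a' * (b.1.2 - v.2)) := by ring
      _ = p * (p' * (b.1.1 - v.1)) := by rw [e2]
      _ = p' * (p * (b.1.1 - v.1)) := by ring
      _ = p' * (a * (b.1.2 - v.2)) := by rw [e1]
      _ = p' * a * (b.1.2 - v.2) := by ring
  have e4 : p * a' = p' * a := by exact_mod_cast e3
  have h6 : p ∣ p' * a := ⟨a', e4.symm⟩
  rcases (Nat.Prime.dvd_mul hp).1 h6 with h7 | h7
  · have h8 := (Nat.prime_dvd_prime_iff_eq hp hp').1 h7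
    subst h8
    have h9 := Nat.eq_of_mul_eq_mul_left hp.pos e4
    rw [h9]
  · have := Nat.le_of_dvd (by omega) h7
    omega

theorem Sd_sum {A : Finset (ℤ × ℤ)} {P : Finset ℕ} (hP : ∀ p ∈ P, p.Prime) (v : ℤ × ℤ) :
    ∑ d ∈ Dir P, (Sd A d.1 d.2 v).card ≤ link A v := by
  rw [← card_biUnion (Sd_disj hP v)]
  unfold link
  refine card_le_card ?_
  intro b hb
  rw [mem_biUnion] at hb
  obtain ⟨d, hd, hb⟩ := hb
  rw [mem_Dir] at hd
  exact Sd_sub (by omega) v hb

theorem Sd_card {A : Finset (ℤ × ℤ)} {p a : ℕ} {v : ℤ × ℤ} (hv : v ∈ A) {c : ℝ} (hc : 2 ≤ c)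
    (h : 2 * c ≤ ((A.filter (fun x => lf p a x = lf p a v)).card : ℝ)) :
    c ^ 2 ≤ ((Sd A p a v).card : ℝ) := by
  have h1 : ((A.filter (fun x => lf p a x = lf p a v)).erase v).card + 1
      = (A.filter (fun x => lf p a x = lf p a v)).card :=
    card_erase_add_one (by rw [mem_filter]; exact ⟨hv, rfl⟩)
  rw [Sd, offDiag_card]
  set m := ((A.filter (fun x => lf p a x = lf p a v)).erase v).card
  have h2 : (((A.filter (fun x => lf p a x = lf p a v)).card : ℕ) : ℝ) = (m : ℝ) + 1 := by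
    rw [← h1]
    push_cast
    ring
  rw [h2] at h
  have h3 : m ≤ m * m := Nat.le_mul_self m
  rw [Nat.cast_sub h3]
  push_cast
  nlinarith

/-- one direction -/
theorem one_dir {k : ℕ} {A : Finset (ℤ × ℤ)} (hA : A ⊆ Gr k) {p a : ℕ} (ha : a < p) (hk : 0 < k)
    {c : ℝ} (hc : 2 ≤ c) (hcA : c * (8 * p * k) ≤ A.card) :
    (A.card : ℝ) / 2 * c ^ 2 ≤ ((∑ v ∈ A, (Sd A p a v).card : ℕ) : ℝ) := by
  classical
  set n : ℤ × ℤ → ℕ := fun v => (A.filter (fun x => lf p a x = lf p a v)).card with hn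
  have hpoor : ((A.filter (fun v => (n v : ℝ) < 2 * c)).card : ℝ) ≤ 2 * p * k * (2 * c) := by
    have h1 : (A.filter (fun v => (n v : ℝ) < 2 * c)).card
        = ∑ b ∈ Finset.Ico (-((a * k : ℕ) : ℤ)) ((p * k : ℕ) : ℤ),
          ((A.filter (fun v => (n v : ℝ) < 2 * c)).filter (fun v => lf p a v = b)).card := by
      refine card_eq_sum_card_fiberwise ?_
      intro v hv
      rw [mem_coe, mem_filter] at hv
      have hg := mem_Gr.1 (hA hv.1)
      rw [mem_coe, Finset.mem_Ico, lf]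
      push_cast
      have hp0 : (0 : ℤ) < p := by
        have : 0 < p := by omega
        exact_mod_cast this
      have ha0 : (0 : ℤ) ≤ a := by positivity
      constructor
      · nlinarith [mul_nonneg hp0.le hg.1.1, mul_le_mul_of_nonneg_left hg.2.2.le ha0]
      · nlinarith [mul_lt_mul_of_pos_left hg.1.2 hp0, mul_nonneg ha0 hg.2.1]
    have h2 : ∀ b ∈ Finset.Ico (-((a * k : ℕ) : ℤ)) ((p * k : ℕ) : ℤ),
        (((A.filter (fun v => (n v : ℝ) < 2 * c)).filter (fun v => lf p a v = b)).card : ℝ)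
          ≤ 2 * c := by
      intro b _
      by_cases hne : ((A.filter (fun v => (n v : ℝ) < 2 * c)).filter
          (fun v => lf p a v = b)).Nonempty
      · obtain ⟨w, hw⟩ := hne
        rw [mem_filter, mem_filter] at hw
        have h3 : ((A.filter (fun v => (n v : ℝ) < 2 * c)).filter (fun v => lf p a v = b)).card
            ≤ n w := by
          refine card_le_card ?_
          intro x hx
          rw [mem_filter, mem_filter] at hx
          rw [mem_filter]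
          exact ⟨hx.1.1, by rw [hx.2, hw.2]⟩
        have h4 : (((A.filter (fun v => (n v : ℝ) < 2 * c)).filter
            (fun v => lf p a v = b)).card : ℝ) ≤ (n w : ℝ) := by exact_mod_cast h3
        linarith [hw.1.2]
      · rw [not_nonempty_iff_eq_empty] at hne
        rw [hne]
        simp only [card_empty, Nat.cast_zero]
        linarith
    rw [h1]
    push_cast
    refine le_trans (sum_le_sum h2) ?_
    rw [sum_const, nsmul_eq_mul]
    refine mul_le_mul_of_nonneg_right ?_ (by linarith)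
    rw [Int.card_Ico]
    have h5 : ((p : ℤ) * (k : ℤ) - -((a : ℤ) * (k : ℤ))).toNat = p * k + a * k := by
      have h5' : (p : ℤ) * (k : ℤ) - -((a : ℤ) * (k : ℤ)) = ((p * k + a * k : ℕ) : ℤ) := by
        push_cast
        ring
      rw [h5', Int.toNat_natCast]
    rw [h5]
    push_cast
    have h6 : (a : ℝ) ≤ p := by exact_mod_cast ha.le
    have h7 : (0 : ℝ) ≤ k := Nat.cast_nonneg k
    nlinarith
  have hsplit := card_filter_add_card_filter_not (s := A) (fun v => (n v : ℝ) < 2 * c)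
  have hrich : (A.card : ℝ) / 2 ≤ ((A.filter (fun v => ¬ (n v : ℝ) < 2 * c)).card : ℝ) := by
    have h8 : (A.card : ℝ) = ((A.filter (fun v => (n v : ℝ) < 2 * c)).card : ℝ)
        + ((A.filter (fun v => ¬ (n v : ℝ) < 2 * c)).card : ℝ) := by exact_mod_cast hsplit.symm
    have h9 : 2 * (p : ℝ) * k * (2 * c) = (c * (8 * p * k)) / 2 := by ring
    rw [h9] at hpoor
    linarith
  push_cast
  calc (A.card : ℝ) / 2 * c ^ 2
      ≤ ((A.filter (fun v => ¬ (n v : ℝ) < 2 * c)).card : ℝ) * c ^ 2 :=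
        mul_le_mul_of_nonneg_right hrich (by positivity)
    _ = ∑ _v ∈ A.filter (fun v => ¬ (n v : ℝ) < 2 * c), c ^ 2 := by
        rw [sum_const, nsmul_eq_mul]
    _ ≤ ∑ v ∈ A.filter (fun v => ¬ (n v : ℝ) < 2 * c), ((Sd A p a v).card : ℝ) := by
        refine sum_le_sum ?_
        intro v hv
        rw [mem_filter] at hv
        refine Sd_card hv.1 hc ?_
        have := not_lt.1 hv.2
        exact this
    _ ≤ ∑ v ∈ A, ((Sd A p a v).card : ℝ) :=
        sum_le_sum_of_subset_of_nonneg (filter_subset _ _) (fun _ _ _ => by positivity)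

/-- finite sets of primes with large sum of reciprocals -/
theorem exists_primes (M : ℝ) : ∃ P : Finset ℕ, (∀ p ∈ P, p.Prime) ∧ M ≤ ∑ p ∈ P, (1 : ℝ) / p := by
  by_contra hcon
  push Not at hcon
  refine Nat.Primes.not_summable_one_div (summable_of_sum_le (c := M) ?_ ?_)
  · intro p
    positivity
  · intro u
    have h1 := hcon (u.image (fun p : Nat.Primes => (p : ℕ))) (by
      intro p hp
      rw [mem_image] at hp
      obtain ⟨q, _, rfl⟩ := hp
      exact q.2)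
    rw [sum_image (by
      intro a _ b _ hab
      exact Subtype.ext hab)] at h1
    exact h1.le

/-- supersaturation: dense subsets of the grid contain a point with many collinear pairs -/
theorem sat {δ : ℝ} (hδ : 0 < δ) : ∃ k₀ : ℕ, ∀ k : ℕ, k₀ ≤ k → 0 < k → ∀ A ⊆ Gr k,
    δ * (k : ℝ) ^ 2 < A.card → ∃ v ∈ A, 40 * k ^ 2 + 8 * k ≤ link A v := by
  classical
  obtain ⟨P, hP, hM⟩ := exists_primes (48 * 256 / δ ^ 2)
  obtain ⟨N, hN⟩ : ∃ N : ℕ, ∀ p ∈ P, p ≤ N := ⟨P.sup id, fun p hp => le_sup (f := id) hp⟩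
  obtain ⟨k₀, hk₀⟩ := exists_nat_ge (16 * (N : ℝ) / δ)
  refine ⟨k₀, ?_⟩
  intro k hk hk0 A hA hcard
  have hkR : (0 : ℝ) < k := by exact_mod_cast hk0
  have hkk : (k₀ : ℝ) ≤ k := by exact_mod_cast hk
  have hkN : 16 * (N : ℝ) ≤ δ * k := by
    have h1 : 16 * (N : ℝ) / δ ≤ k := le_trans hk₀ hkk
    rw [div_le_iff₀ hδ] at h1
    linarith
  have hApos : (0 : ℝ) < A.card := lt_of_le_of_lt (by positivity) hcard
  have hdir : ∀ p ∈ P, ∀ a, a < p →
      (A.card : ℝ) * (δ ^ 2 * k ^ 2 / (128 * p ^ 2)) ≤ ((∑ v ∈ A, (Sd A p a v).card : ℕ) : ℝ) := by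
    intro p hp a ha
    have hp0 : (0 : ℝ) < p := by exact_mod_cast (hP p hp).pos
    have hpN : (p : ℝ) ≤ N := by exact_mod_cast hN p hp
    have hc : 2 ≤ δ * k / (8 * p) := by
      rw [le_div_iff₀ (by positivity)]
      linarith
    have h2 := one_dir hA ha hk0 hc (by
      have : δ * k / (8 * p) * (8 * p * k) = δ * (k : ℝ) ^ 2 := by
        field_simp
      rw [this]
      exact hcard.le)
    refine le_trans (le_of_eq ?_) h2
    field_simp
    ring
  have hsum : (A.card : ℝ) * (48 * k ^ 2) ≤ ((∑ v ∈ A, link A v : ℕ) : ℝ) := by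
    have h3 : ((∑ v ∈ A, ∑ d ∈ Dir P, (Sd A d.1 d.2 v).card : ℕ) : ℝ)
        ≤ ((∑ v ∈ A, link A v : ℕ) : ℝ) := by
      exact_mod_cast sum_le_sum (fun v _ => Sd_sum hP v)
    refine le_trans ?_ h3
    rw [sum_comm]
    have h4 : ∑ d ∈ Dir P, ∑ v ∈ A, (Sd A d.1 d.2 v).card
        = ∑ p ∈ P, ∑ a ∈ Finset.Ico 1 p, ∑ v ∈ A, (Sd A p a v).card := by
      unfold Dir
      rw [sum_biUnion]
      · refine sum_congr rfl ?_
        intro p _
        rw [sum_image]
        intro a _ b _ hab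
        exact (Prod.mk.inj hab).2
      · intro p _ q _ hpq
        show Disjoint ((Finset.Ico 1 p).image (fun a => (p, a)))
          ((Finset.Ico 1 q).image (fun a => (q, a)))
        rw [Finset.disjoint_left]
        intro x hx hy
        rw [mem_image] at hx hy
        obtain ⟨a, _, rfl⟩ := hx
        obtain ⟨b, _, hb⟩ := hy
        exact hpq (Prod.mk.inj hb).1.symm
    rw [h4]
    push_cast
    have h5 : ∀ p ∈ P, (A.card : ℝ) * (δ ^ 2 * k ^ 2 / 256) * (1 / p)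
        ≤ ∑ a ∈ Finset.Ico 1 p, ∑ v ∈ A, ((Sd A p a v).card : ℝ) := by
      intro p hp
      have hp2 : (2 : ℝ) ≤ p := by exact_mod_cast (hP p hp).two_le
      have h6 : ∀ a ∈ Finset.Ico 1 p, (A.card : ℝ) * (δ ^ 2 * k ^ 2 / (128 * p ^ 2))
          ≤ ∑ v ∈ A, ((Sd A p a v).card : ℝ) := by
        intro a ha
        rw [Finset.mem_Ico] at ha
        have := hdir p hp a ha.2
        push_cast at this
        exact this
      refine le_trans ?_ (sum_le_sum h6)
      rw [sum_const, Nat.card_Ico, nsmul_eq_mul, Nat.cast_sub (by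
        have := (hP p hp).two_le
        omega)]
      push_cast
      have h7 : (A.card : ℝ) * (δ ^ 2 * k ^ 2 / 256) * (1 / p)
          = (A.card : ℝ) * (δ ^ 2 * k ^ 2) / (256 * p ^ 2) * p := by
        field_simp
      have h8 : ((p : ℝ) - 1) * ((A.card : ℝ) * (δ ^ 2 * k ^ 2 / (128 * p ^ 2)))
          = (A.card : ℝ) * (δ ^ 2 * k ^ 2) / (256 * p ^ 2) * (2 * (p - 1)) := by
        field_simp
        ring
      rw [h7, h8]
      refine mul_le_mul_of_nonneg_left (by linarith) (by positivity)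
    refine le_trans ?_ (sum_le_sum h5)
    rw [← mul_sum]
    have h9 : (A.card : ℝ) * (48 * k ^ 2) = (A.card : ℝ) * (δ ^ 2 * k ^ 2 / 256)
        * (48 * 256 / δ ^ 2) := by
      field_simp
    rw [h9]
    exact mul_le_mul_of_nonneg_left hM (by positivity)
  by_contra hcon
  push Not at hcon
  have h10 : ∑ v ∈ A, link A v ≤ A.card * (40 * k ^ 2 + 8 * k) := by
    rw [← smul_eq_mul, ← sum_const]
    exact sum_le_sum (fun v hv => (hcon v hv).le)
  have hAne : A.Nonempty := by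
    rw [← card_pos]
    exact_mod_cast hApos
  have h10' : ∑ v ∈ A, link A v < A.card * (40 * k ^ 2 + 8 * k) := by
    rw [← smul_eq_mul, ← sum_const]
    exact sum_lt_sum_of_nonempty hAne (fun v hv => hcon v hv)
  have h11 : ((∑ v ∈ A, link A v : ℕ) : ℝ) < ((A.card * (40 * k ^ 2 + 8 * k) : ℕ) : ℝ) := by
    exact_mod_cast h10'
  push_cast at h11 hsum
  have h12 : (A.card : ℝ) * (40 * k ^ 2 + 8 * k) ≤ (A.card : ℝ) * (48 * k ^ 2) := by
    refine mul_le_mul_of_nonneg_left ?_ hApos.le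
    have : (1 : ℝ) ≤ k := by exact_mod_cast hk0
    nlinarith
  linarith

end Pool.Agent.Lib.MPc99423
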