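import Pool.Agent.Lib.MP_c99423_co.Gen
import Pool.Agent.Lib.MP_c99423_co.Sat2

set_option autoImplicit false

open Finset

namespace Pool.Agent.Lib.MPc99423.Gen

/-- collinear triples on lines whose direction `(a, p)` has `Y < p ≤ N` -/
def RR (Y N : ℕ) (u x y : ℤ × ℤ) : Prop :=
  T u x y ∧ ∃ d ∈ DirC N, Y < d.1 ∧ lf d.1 d.2 u = lf d.1 d.2 x ∧ lf d.1 d.2 u = lf d.1 d.2 y

theorem RR_swap {Y N : ℕ} {u x y : ℤ × ℤ} (h : RR Y N u x y) : RR Y N u y x := by
  obtain ⟨h1, d, h2, h3, h4, h5⟩ := h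
  exact ⟨T_swap h1, d, h2, h3, h5, h4⟩

/-- two different points determine the direction -/
theorem dir_unique {N : ℕ} {d d' : ℕ × ℕ} (hd : d ∈ DirC N) (hd' : d' ∈ DirC N) {u x : ℤ × ℤ}
    (hux : u ≠ x) (h : lf d.1 d.2 u = lf d.1 d.2 x) (h' : lf d'.1 d'.2 u = lf d'.1 d'.2 x) :
    d = d' := by
  by_contra hne
  have hdis := Sd_disjC (A := ({x, u, (x.1 + (x.1 - u.1), x.2 + (x.2 - u.2))} : Finset (ℤ × ℤ)))
    (N := N) u hd hd' hne
  have hmem : ∀ e : ℕ × ℕ, lf e.1 e.2 u = lf e.1 e.2 x →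
      ((x, (x.1 + (x.1 - u.1), x.2 + (x.2 - u.2))) : (ℤ × ℤ) × (ℤ × ℤ)) ∈
        Sd ({x, u, (x.1 + (x.1 - u.1), x.2 + (x.2 - u.2))} : Finset (ℤ × ℤ)) e.1 e.2 u := by
    intro e he
    rw [mem_Sd]
    refine ⟨⟨by simp, hux.symm, he.symm⟩, ⟨by simp, ?_, ?_⟩, ?_⟩
    · intro h1
      refine hux ?_
      have h2 := congrArg Prod.fst h1
      have h3 := congrArg Prod.snd h1
      simp only at h2 h3
      exact Prod.ext (by linarith) (by linarith)
    · unfold lf at he ⊢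
      simp only
      linear_combination -2 * he
    · intro h1
      refine hux ?_
      have h2 := congrArg Prod.fst h1
      have h3 := congrArg Prod.snd h1
      simp only at h2 h3
      exact Prod.ext (by linarith) (by linarith)
  have hdis' : Disjoint
      (Sd ({x, u, (x.1 + (x.1 - u.1), x.2 + (x.2 - u.2))} : Finset (ℤ × ℤ)) d.1 d.2 u)
      (Sd ({x, u, (x.1 + (x.1 - u.1), x.2 + (x.2 - u.2))} : Finset (ℤ × ℤ)) d'.1 d'.2 u) := hdis
  exact (Finset.disjoint_left.1 hdis') (hmem d h) (hmem d' h')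

open Classical in
/-- the codegrees are small -/
theorem codeg {Y N k : ℕ} (hY : 0 < Y) {A : Finset (ℤ × ℤ)} (hA : A ⊆ Gr k) (u x : ℤ × ℤ) :
    ((A.filter (fun y => RR Y N u x y)).card : ℝ) ≤ (k : ℝ) / Y + 1 := by
  have hYR : (0 : ℝ) < Y := by exact_mod_cast hY
  rcases (A.filter (fun y => RR Y N u x y)).eq_empty_or_nonempty with he | hne
  · rw [he]
    simp only [card_empty, Nat.cast_zero]
    positivity
  obtain ⟨y₀, hy₀⟩ := hne
  rw [mem_filter] at hy₀
  obtain ⟨_, hT0, d, hd, hYd, h1, _⟩ := hy₀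
  have hux : u ≠ x := hT0.1
  obtain ⟨p, a⟩ := d
  simp only at hYd h1
  have hd' := mem_DirC.1 hd
  simp only at hd'
  have hp0 : 0 < p := by omega
  have hpZ : (0 : ℤ) < p := by exact_mod_cast hp0
  have hcop : IsCoprime (p : ℤ) (a : ℤ) := by
    rw [Nat.isCoprime_iff_coprime]
    exact hd'.2.2
  have hcard : (A.filter (fun y => RR Y N u x y)).card ≤ (range (k / p + 1)).card := by
    refine card_le_card_of_injOn (fun y => (y.2 / (p : ℤ)).toNat) ?_ ?_
    · intro y hy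
      rw [mem_coe, mem_filter] at hy
      have hg := mem_Gr.1 (hA hy.1)
      rw [mem_coe, mem_range]
      have h2 : y.2 / (p : ℤ) ≤ ((k / p : ℕ) : ℤ) := by
        push_cast
        exact Int.ediv_le_ediv hpZ hg.2.2.le
      have h2' : (0 : ℤ) ≤ y.2 / (p : ℤ) := Int.ediv_nonneg hg.2.1 hpZ.le
      have h2'' : (((y.2 / (p : ℤ)).toNat : ℕ) : ℤ) ≤ ((k / p : ℕ) : ℤ) := by
        rw [Int.toNat_of_nonneg h2']
        exact h2
      have h2''' : (y.2 / (p : ℤ)).toNat ≤ k / p := by exact_mod_cast h2''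
      show (y.2 / (p : ℤ)).toNat < k / p + 1
      omega
    · intro y hy y' hy' he
      rw [mem_coe, mem_filter] at hy hy'
      have hg := mem_Gr.1 (hA hy.1)
      have hg' := mem_Gr.1 (hA hy'.1)
      obtain ⟨_, _, e, he1, _, he2, he3⟩ := hy
      obtain ⟨_, _, e', he1', _, he2', he3'⟩ := hy'
      have hee := dir_unique hd he1 hux h1 he2
      have hee' := dir_unique hd he1' hux h1 he2'
      rw [← hee] at he3
      rw [← hee'] at he3'
      unfold lf at he3 he3'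
      simp only at he3 he3'
      have h4 : (p : ℤ) * (y.1 - y'.1) = a * (y.2 - y'.2) := by linarith
      have h5 : (p : ℤ) ∣ y.2 - y'.2 := hcop.dvd_of_dvd_mul_left ⟨_, h4.symm⟩
      have h6 : 0 ≤ y.2 / (p : ℤ) := Int.ediv_nonneg hg.2.1 hpZ.le
      have h7 : 0 ≤ y'.2 / (p : ℤ) := Int.ediv_nonneg hg'.2.1 hpZ.le
      have h8 : y.2 / (p : ℤ) = y'.2 / (p : ℤ) := by
        have h9 : (y.2 / (p : ℤ)).toNat = (y'.2 / (p : ℤ)).toNat := he
        omega
      have h10 : y.2 % (p : ℤ) = y'.2 % (p : ℤ) :=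
        Int.emod_eq_emod_iff_emod_sub_eq_zero.2 (Int.emod_eq_zero_of_dvd h5)
      have h11 := Int.emod_add_mul_ediv y.2 p
      have h12 := Int.emod_add_mul_ediv y'.2 p
      have h13 : y.2 = y'.2 := by
        rw [← h11, ← h12, h8, h10]
      have h14 : y.1 = y'.1 := by
        rw [h13, sub_self, mul_zero] at h4
        have := (mul_eq_zero.1 h4).resolve_left hpZ.ne'
        linarith
      exact Prod.ext h14 h13
  rw [card_range] at hcard
  have h2 : ((A.filter (fun y => RR Y N u x y)).card : ℝ) ≤ ((k / p + 1 : ℕ) : ℝ) := by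
    exact_mod_cast hcard
  refine h2.trans ?_
  push_cast
  have h3 : (((k / p : ℕ) : ℕ) : ℝ) ≤ (k : ℝ) / p := Nat.cast_div_le
  have h4 : (k : ℝ) / p ≤ (k : ℝ) / Y := by
    refine div_le_div_of_nonneg_left (Nat.cast_nonneg k) hYR ?_
    exact_mod_cast hYd.le
  push_cast at h3
  linarith

open Classical in
theorem Sd_sumR {A : Finset (ℤ × ℤ)} {Y N : ℕ} (v : ℤ × ℤ) :
    ∑ d ∈ (DirC N).filter (fun d => Y < d.1), (Sd A d.1 d.2 v).card ≤ lk (RR Y N) A v := by
  rw [← card_biUnion]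
  · unfold lk
    refine card_le_card ?_
    intro b hb
    rw [mem_biUnion] at hb
    obtain ⟨d, hd, hb⟩ := hb
    rw [mem_filter] at hd
    have hd1 := mem_DirC.1 hd.1
    have h1 := Sd_sub (by omega) v hb
    rw [mem_filter] at h1 ⊢
    obtain ⟨⟨_, _, h3⟩, ⟨_, _, h4⟩, _⟩ := mem_Sd.1 hb
    exact ⟨h1.1, h1.2, d, hd.1, hd.2, h3.symm, h4.symm⟩
  · intro d hd d' hd' hne
    rw [mem_coe, mem_filter] at hd hd'
    exact Sd_disjC v hd.1 hd'.1 hne

/-- supersaturation for the restricted relation -/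
theorem sat3 {δ Λ : ℝ} (hδ : 0 < δ) {k Y N : ℕ} (hk0 : 0 < k) (hN : 16 * (N : ℝ) ≤ δ * k)
    (hΛ : Λ ≤ ∑ b ∈ (Icc 1 N).filter (fun b => Y < b), (Nat.totient b : ℝ) / (b : ℝ) ^ 2) :
    ∀ A ⊆ Gr k, δ * (k : ℝ) ^ 2 < A.card →
      ∃ v ∈ A, δ ^ 2 * k ^ 2 * Λ / 128 ≤ (lk (RR Y N) A v : ℝ) := by
  classical
  intro A hA hcard
  have hkR : (0 : ℝ) < k := by exact_mod_cast hk0
  have hApos : (0 : ℝ) < A.card := lt_of_le_of_lt (by positivity) hcard
  have hdir : ∀ p ∈ Icc 1 N, ∀ a, a < p →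
      (A.card : ℝ) * (δ ^ 2 * k ^ 2 / (128 * p ^ 2)) ≤ ((∑ v ∈ A, (Sd A p a v).card : ℕ) : ℝ) := by
    intro p hp a ha
    rw [mem_Icc] at hp
    have hp0 : (0 : ℝ) < p := by exact_mod_cast (by omega : 0 < p)
    have hpN : (p : ℝ) ≤ N := by exact_mod_cast hp.2
    have hc : 2 ≤ δ * k / (8 * p) := by
      rw [le_div_iff₀ (by positivity)]
      linarith
    have h2 := one_dir hA ha hk0 hc (by
      have : δ * k / (8 * p) * (8 * p * k) = δ * (k : ℝ) ^ 2 := by
        field_simp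
      rw [this]
      exact hcard.le)
    refine le_trans (le_of_eq ?_) h2
    field_simp
    ring
  have hsum : (A.card : ℝ) * (δ ^ 2 * k ^ 2 * Λ / 128) ≤ ((∑ v ∈ A, lk (RR Y N) A v : ℕ) : ℝ) := by
    have h3 : ((∑ v ∈ A, ∑ d ∈ (DirC N).filter (fun d => Y < d.1), (Sd A d.1 d.2 v).card : ℕ) : ℝ)
        ≤ ((∑ v ∈ A, lk (RR Y N) A v : ℕ) : ℝ) := by
      exact_mod_cast sum_le_sum (fun v _ => Sd_sumR v)
    refine le_trans ?_ h3
    rw [sum_comm]
    have h4 : ∑ d ∈ (DirC N).filter (fun d => Y < d.1), ∑ v ∈ A, (Sd A d.1 d.2 v).card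
        = ∑ p ∈ (Icc 1 N).filter (fun b => Y < b), ∑ a ∈ (range p).filter (fun a => p.Coprime a),
          ∑ v ∈ A, (Sd A p a v).card := by
      have h4' : (DirC N).filter (fun d => Y < d.1) = ((Icc 1 N).filter (fun b => Y < b)).biUnion
          (fun p => ((range p).filter (fun a => p.Coprime a)).image (fun a => (p, a))) := by
        ext ⟨p, a⟩
        simp only [DirC, mem_filter, mem_biUnion, mem_image, Prod.mk.injEq]
        constructor
        · rintro ⟨⟨q, hq, b, hb, rfl, rfl⟩, h⟩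
          exact ⟨q, ⟨hq, h⟩, b, hb, rfl, rfl⟩
        · rintro ⟨q, ⟨hq, h⟩, b, hb, rfl, rfl⟩
          exact ⟨⟨q, hq, b, hb, rfl, rfl⟩, h⟩
      rw [h4', sum_biUnion]
      · refine sum_congr rfl ?_
        intro p _
        rw [sum_image]
        intro a _ b _ hab
        exact (Prod.mk.inj hab).2
      · intro p _ q _ hpq
        show Disjoint (((range p).filter (fun a => p.Coprime a)).image (fun a => (p, a)))
          (((range q).filter (fun a => q.Coprime a)).image (fun a => (q, a)))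
        rw [Finset.disjoint_left]
        intro x hx hy
        rw [mem_image] at hx hy
        obtain ⟨a, _, rfl⟩ := hx
        obtain ⟨b, _, hb⟩ := hy
        exact hpq (Prod.mk.inj hb).1.symm
    rw [h4]
    push_cast
    have h5 : ∀ p ∈ (Icc 1 N).filter (fun b => Y < b),
        (A.card : ℝ) * (δ ^ 2 * k ^ 2 / 128) * ((Nat.totient p : ℝ) / p ^ 2)
        ≤ ∑ a ∈ (range p).filter (fun a => p.Coprime a), ∑ v ∈ A, ((Sd A p a v).card : ℝ) := by
      intro p hp
      rw [mem_filter] at hp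
      have hp0 : (0 : ℝ) < p := by
        have := hp.1
        rw [mem_Icc] at this
        exact_mod_cast (by omega : 0 < p)
      have h6 : ∀ a ∈ (range p).filter (fun a => p.Coprime a),
          (A.card : ℝ) * (δ ^ 2 * k ^ 2 / (128 * p ^ 2)) ≤ ∑ v ∈ A, ((Sd A p a v).card : ℝ) := by
        intro a ha
        rw [mem_filter, mem_range] at ha
        have := hdir p hp.1 a ha.1
        push_cast at this
        exact this
      refine le_trans ?_ (sum_le_sum h6)
      rw [sum_const, ← Nat.totient_eq_card_coprime, nsmul_eq_mul]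
      refine le_of_eq ?_
      field_simp
    refine le_trans ?_ (sum_le_sum h5)
    rw [← mul_sum]
    calc (A.card : ℝ) * (δ ^ 2 * k ^ 2 * Λ / 128) = (A.card : ℝ) * (δ ^ 2 * k ^ 2 / 128) * Λ := by
          ring
      _ ≤ _ := mul_le_mul_of_nonneg_left hΛ (by positivity)
  by_contra hcon
  push Not at hcon
  have hAne : A.Nonempty := by
    rw [← card_pos]
    exact_mod_cast hApos
  have h10 : ((∑ v ∈ A, lk (RR Y N) A v : ℕ) : ℝ) < A.card * (δ ^ 2 * k ^ 2 * Λ / 128) := by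
    push_cast
    rw [← nsmul_eq_mul, ← sum_const]
    exact sum_lt_sum_of_nonempty hAne (fun v hv => hcon v hv)
  linarith

/-- the weight of the directions -/
theorem weight (Y N : ℕ) (hYN : Y ≤ N) : Real.log ((N : ℝ) + 1) / 2 - (1 + Real.log Y) ≤
    ∑ b ∈ (Icc 1 N).filter (fun b => Y < b), (Nat.totient b : ℝ) / (b : ℝ) ^ 2 := by
  have h1 := totient_sum N
  have h2 := sum_filter_add_sum_filter_not (Icc 1 N) (fun b => Y < b)
    (fun b : ℕ => (Nat.totient b : ℝ) / (b : ℝ) ^ 2)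
  have h3 : ∑ b ∈ (Icc 1 N).filter (fun b => ¬ Y < b), (Nat.totient b : ℝ) / (b : ℝ) ^ 2
      ≤ 1 + Real.log Y := by
    have h4 : (Icc 1 N).filter (fun b => ¬ Y < b) = Icc 1 Y := by
      ext b
      rw [mem_filter, mem_Icc, mem_Icc]
      omega
    rw [h4]
    have h5 : ((harmonic Y : ℚ) : ℝ) = ∑ b ∈ Icc 1 Y, ((b : ℝ))⁻¹ := by
      rw [harmonic_eq_sum_Icc]
      push_cast
      rfl
    have h6 := harmonic_le_one_add_log Y
    rw [h5] at h6
    refine le_trans (sum_le_sum ?_) h6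
    intro b hb
    rw [mem_Icc] at hb
    have hb0 : (0 : ℝ) < b := by exact_mod_cast (by omega : 0 < b)
    have h7 : (Nat.totient b : ℝ) ≤ b := by exact_mod_cast Nat.totient_le b
    rw [div_le_iff₀ (by positivity)]
    have h8 : ((b : ℝ))⁻¹ * (b : ℝ) ^ 2 = b := by
      field_simp
    rw [h8]
    exact h7
  linarith

end Pool.Agent.Lib.MPc99423.Gen
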