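import Pool.Agent.Lib.MP_c99423_co.Sat

set_option autoImplicit false

open Finset

namespace Pool.Agent.Lib.MPc99423

/-- the graph of a permutation -/
def gr {k : ℕ} (π : Equiv.Perm (Fin k)) : Finset (ℤ × ℤ) :=
  univ.image (fun i : Fin k => ((i : ℤ), (π i : ℤ)))

theorem mem_gr {k : ℕ} {π : Equiv.Perm (Fin k)} {p : ℤ × ℤ} :
    p ∈ gr π ↔ ∃ i : Fin k, p = ((i : ℤ), (π i : ℤ)) := by
  rw [gr, mem_image]
  constructor
  · rintro ⟨i, _, h⟩
    exact ⟨i, h.symm⟩
  · rintro ⟨i, h⟩
    exact ⟨i, mem_univ _, h.symm⟩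

theorem gr_sub {k : ℕ} (π : Equiv.Perm (Fin k)) : gr π ⊆ Gr k := by
  intro p hp
  obtain ⟨i, rfl⟩ := mem_gr.1 hp
  rw [mem_Gr]
  have h1 := i.2
  have h2 := (π i).2
  simp only
  omega

theorem gr_fst {k : ℕ} {π : Equiv.Perm (Fin k)} {p q : ℤ × ℤ} (hp : p ∈ gr π) (hq : q ∈ gr π)
    (h : p.1 = q.1) : p = q := by
  obtain ⟨i, rfl⟩ := mem_gr.1 hp
  obtain ⟨j, rfl⟩ := mem_gr.1 hq
  simp only at h
  have : i = j := Fin.ext (by exact_mod_cast h)
  rw [this]

/-- the number of permutations whose graph contains `F` and is contained in `F ∪ A` -/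
theorem leaf {k : ℕ} (hk : 0 < k) {δ : ℝ} (hδ : 0 < δ) {F A : Finset (ℤ × ℤ)}
    (hA : A ⊆ Gr k) (hAc : (A.card : ℝ) ≤ δ * (k : ℝ) ^ 2) (S : Finset (Equiv.Perm (Fin k)))
    (hS : ∀ π ∈ S, F ⊆ gr π ∧ gr π ⊆ F ∪ A) (hne : S.Nonempty) :
    (S.card : ℝ) ≤ (δ * k) ^ (k - F.card) * Real.exp k ∧ F.card ≤ k := by
  classical
  have hkR : (0 : ℝ) < k := by exact_mod_cast hk
  obtain ⟨π₀, hπ₀⟩ := hne
  have hF₀ := (hS π₀ hπ₀).1
  -- columns of `F`
  set C : Finset (Fin k) := univ.filter (fun i : Fin k => ∃ p ∈ F, p.1 = (i : ℤ)) with hC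
  have hCF : C.card = F.card := by
    symm
    refine card_bij (fun p hp => (Classical.choose (mem_gr.1 (hF₀ hp)))) ?_ ?_ ?_
    · intro p hp
      have h1 := Classical.choose_spec (mem_gr.1 (hF₀ hp))
      rw [hC, mem_filter]
      exact ⟨mem_univ _, p, hp, congrArg Prod.fst h1⟩
    · intro p hp q hq he
      have h1 := Classical.choose_spec (mem_gr.1 (hF₀ hp))
      have h2 := Classical.choose_spec (mem_gr.1 (hF₀ hq))
      rw [he] at h1
      exact h1.trans h2.symm
    · intro i hi
      rw [hC, mem_filter] at hi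
      obtain ⟨_, p, hp, hpi⟩ := hi
      refine ⟨p, hp, ?_⟩
      have h1 := Classical.choose_spec (mem_gr.1 (hF₀ hp))
      have h2 : ((i : ℕ) : ℤ) = ((Classical.choose (mem_gr.1 (hF₀ hp)) : Fin k) : ℤ) :=
        hpi.symm.trans (congrArg Prod.fst h1)
      exact (Fin.ext (by exact_mod_cast h2)).symm
  -- the admissible values
  set Wv : Fin k → Finset (Fin k) := fun i => if i ∈ C
    then univ.filter (fun y : Fin k => ((i : ℤ), (y : ℤ)) ∈ F)
    else univ.filter (fun y : Fin k => ((i : ℤ), (y : ℤ)) ∈ A) with hWv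
  have h1 : S.card ≤ (Fintype.piFinset Wv).card := by
    refine card_le_card_of_injOn (fun π => fun i => π i) ?_ ?_
    · intro π hπ
      rw [mem_coe, Fintype.mem_piFinset]
      intro i
      have h2 := (hS π hπ).1
      have h3 := (hS π hπ).2 (mem_gr.2 ⟨i, rfl⟩)
      rw [hWv]
      simp only
      split_ifs with h4
      · rw [mem_filter]
        refine ⟨mem_univ _, ?_⟩
        rw [hC, mem_filter] at h4
        obtain ⟨_, p, hp, hpi⟩ := h4
        have h5 : p = ((i : ℤ), (π i : ℤ)) := gr_fst (h2 hp) (mem_gr.2 ⟨i, rfl⟩) hpi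
        rw [← h5]
        exact hp
      · rw [mem_filter]
        refine ⟨mem_univ _, ?_⟩
        rcases mem_union.1 h3 with h5 | h5
        · exfalso
          refine h4 ?_
          rw [hC, mem_filter]
          exact ⟨mem_univ _, _, h5, rfl⟩
        · exact h5
    · intro π _ π' _ he
      exact Equiv.ext (fun i => congrFun he i)
  rw [Fintype.card_piFinset] at h1
  set a : Fin k → ℕ := fun i => (univ.filter (fun y : Fin k => ((i : ℤ), (y : ℤ)) ∈ A)).card
    with ha
  have h6 : ∀ i ∈ C, (Wv i).card ≤ 1 := by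
    intro i hi
    rw [hWv]
    simp only
    rw [if_pos hi, card_le_one]
    intro y hy y' hy'
    rw [mem_filter] at hy hy'
    have h7 := gr_fst (hF₀ hy.2) (hF₀ hy'.2) rfl
    have h8 := congrArg Prod.snd h7
    simp only at h8
    exact Fin.ext (by exact_mod_cast h8)
  have h7 : ∀ i ∈ Cᶜ, (Wv i).card = a i := by
    intro i hi
    rw [mem_compl] at hi
    rw [hWv]
    simp only
    rw [if_neg hi]
  have h8 : S.card ≤ ∏ i ∈ Cᶜ, a i := by
    refine h1.trans ?_
    rw [← prod_mul_prod_compl C]
    calc (∏ i ∈ C, (Wv i).card) * ∏ i ∈ Cᶜ, (Wv i).card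
        ≤ 1 * ∏ i ∈ Cᶜ, (Wv i).card := by
          refine Nat.mul_le_mul_right _ ?_
          exact prod_le_one' h6
      _ = ∏ i ∈ Cᶜ, a i := by rw [one_mul, prod_congr rfl h7]
  have hsum : ∑ i ∈ Cᶜ, a i ≤ A.card := by
    have h9 : ∑ i ∈ Cᶜ, a i ≤ ∑ i, a i := sum_le_sum_of_subset (subset_univ _)
    refine h9.trans ?_
    rw [ha, ← card_sigma]
    refine card_le_card_of_injOn (fun x => ((x.1 : ℤ), (x.2 : ℤ))) ?_ ?_
    · intro x hx
      rw [mem_coe, mem_sigma, mem_filter] at hx
      exact hx.2.2
    · rintro ⟨i, y⟩ _ ⟨i', y'⟩ _ he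
      simp only [Prod.mk.injEq] at he
      obtain ⟨e1, e2⟩ := he
      have e3 : i = i' := Fin.ext (by exact_mod_cast e1)
      have e4 : y = y' := Fin.ext (by exact_mod_cast e2)
      rw [e3, e4]
  have hCc : Cᶜ.card = k - F.card := by
    rw [card_compl, Fintype.card_fin, hCF]
  have hFk : F.card ≤ k := by
    rw [← hCF]
    have := card_le_univ C
    rw [Fintype.card_fin] at this
    exact this
  refine ⟨?_, hFk⟩
  have hδk : 0 < δ * k := by positivity
  calc (S.card : ℝ) ≤ ((∏ i ∈ Cᶜ, a i : ℕ) : ℝ) := by exact_mod_cast h8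
    _ = ∏ i ∈ Cᶜ, (a i : ℝ) := by push_cast; rfl
    _ ≤ ∏ i ∈ Cᶜ, ((δ * k) * Real.exp ((a i : ℝ) / (δ * k))) := by
        refine prod_le_prod (fun i _ => Nat.cast_nonneg _) ?_
        intro i _
        have h10 := Real.add_one_le_exp ((a i : ℝ) / (δ * k))
        have h11 : (a i : ℝ) = (δ * k) * ((a i : ℝ) / (δ * k)) := by
          field_simp
        nth_rewrite 1 [h11]
        exact mul_le_mul_of_nonneg_left (by linarith) hδk.le
    _ = (δ * k) ^ (k - F.card) * Real.exp (∑ i ∈ Cᶜ, (a i : ℝ) / (δ * k)) := by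
        rw [prod_mul_distrib, prod_const, hCc, ← Real.exp_sum]
    _ ≤ (δ * k) ^ (k - F.card) * Real.exp k := by
        refine mul_le_mul_of_nonneg_left ?_ (by positivity)
        rw [Real.exp_le_exp, ← sum_div, div_le_iff₀ hδk]
        have h12 : ((∑ i ∈ Cᶜ, a i : ℕ) : ℝ) ≤ A.card := by exact_mod_cast hsum
        push_cast at h12
        calc _ ≤ (A.card : ℝ) := h12
          _ ≤ δ * (k : ℝ) ^ 2 := hAc
          _ = _ := by ring

/-- the bound at the leaves -/
noncomputable def BB (k : ℕ) (θ : ℝ) : ℝ := Real.exp k * (k : ℝ) ^ k * θ ^ k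

theorem tree {k : ℕ} (hk : 0 < k) {θ : ℝ} (hθ : 0 < θ) (hθ1 : θ ≤ 1)
    (hsat : ∀ A ⊆ Gr k, θ ^ 2 * (k : ℝ) ^ 2 < A.card → ∃ v ∈ A, 40 * k ^ 2 + 8 * k ≤ link A v) :
    ∀ (s : ℕ) (F₁ F₂ A : Finset (ℤ × ℤ)), A.card = s → A ⊆ Gr k → Disjoint F₁ F₂ →
      Disjoint (F₁ ∪ F₂) A → (∀ x ∈ A, deg F₂ A x ≤ 5 * k) →
      40 * k ^ 2 * F₂.card + 10 * k * A.card ≤ EE F₂ A + 10 * k * (k * k) →
      4 * k * F₁.card + A.card ≤ k * k →
      ∀ S : Finset (Equiv.Perm (Fin k)),
        (∀ π ∈ S, (F₁ ∪ F₂ ⊆ gr π ∧ gr π ⊆ (F₁ ∪ F₂) ∪ A) ∧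
          ∀ p ∈ gr π, ∀ q ∈ gr π, ∀ r ∈ gr π, ¬ T p q r) →
        (S.card : ℝ) * (k : ℝ) ^ (F₁.card + F₂.card) ≤ (1 + 1 / (k : ℝ)) ^ s * BB k θ := by
  classical
  have hkR : (0 : ℝ) < k := by exact_mod_cast hk
  have hBB : 0 < BB k θ := by
    unfold BB
    positivity
  have h1k : 1 ≤ 1 + 1 / (k : ℝ) := by
    have : 0 ≤ 1 / (k : ℝ) := by positivity
    linarith
  intro s
  induction s using Nat.strong_induction_on with
  | _ s ih =>
  intro F₁ F₂ A hs hA hF hFA h1 h2 h3 S hS
  rcases S.eq_empty_or_nonempty with hSe | hSne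
  · rw [hSe]
    simp only [card_empty, Nat.cast_zero, zero_mul]
    positivity
  by_cases hleaf : (A.card : ℝ) ≤ θ ^ 2 * (k : ℝ) ^ 2
  · -- leaf
    obtain ⟨h4, h5⟩ := leaf hk (by positivity) hA hleaf S (fun π hπ => (hS π hπ).1) hSne
    have hcard : (F₁ ∪ F₂).card = F₁.card + F₂.card := card_union_of_disjoint hF
    rw [hcard] at h4 h5
    have hE : EE F₂ A ≤ A.card * (5 * k) := by
      unfold EE
      rw [← smul_eq_mul, ← sum_const]
      exact sum_le_sum h1
    have hf2 : 4 * F₂.card ≤ k := by
      have h6 : 40 * k ^ 2 * F₂.card ≤ 10 * k * (k * k) := by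
        have : A.card * (5 * k) ≤ 10 * k * A.card := by
          have : A.card * (5 * k) * 2 = 10 * k * A.card := by ring
          omega
        omega
      have h7 : (10 * k * k) * (4 * F₂.card) ≤ (10 * k * k) * k := by
        calc (10 * k * k) * (4 * F₂.card) = 40 * k ^ 2 * F₂.card := by ring
          _ ≤ 10 * k * (k * k) := h6
          _ = _ := by ring
      exact Nat.le_of_mul_le_mul_left h7 (by positivity)
    have hf1 : 4 * F₁.card ≤ k := by
      have h6 : k * (4 * F₁.card) ≤ k * k := by
        calc k * (4 * F₁.card) = 4 * k * F₁.card := by ring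
          _ ≤ k * k := by omega
      exact Nat.le_of_mul_le_mul_left h6 hk
    obtain ⟨f, hf⟩ : ∃ f, f = F₁.card + F₂.card := ⟨_, rfl⟩
    rw [← hf] at h4 h5 ⊢
    have hf' : 2 * f ≤ k := by omega
    have h8 : (θ ^ 2 * k) ^ (k - f) = θ ^ (2 * (k - f)) * (k : ℝ) ^ (k - f) := by
      rw [mul_pow, ← pow_mul]
    have h9 : θ ^ (2 * (k - f)) ≤ θ ^ k := pow_le_pow_of_le_one hθ.le hθ1 (by omega)
    have h10 : (k : ℝ) ^ (k - f) * (k : ℝ) ^ f = (k : ℝ) ^ k := by
      rw [← pow_add]
      congr 1
      omega
    have h11 : (1 : ℝ) ≤ (1 + 1 / (k : ℝ)) ^ s := one_le_pow₀ h1k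
    calc (S.card : ℝ) * (k : ℝ) ^ f ≤ ((θ ^ 2 * k) ^ (k - f) * Real.exp k) * (k : ℝ) ^ f :=
          mul_le_mul_of_nonneg_right h4 (by positivity)
      _ = θ ^ (2 * (k - f)) * (Real.exp k * ((k : ℝ) ^ (k - f) * (k : ℝ) ^ f)) := by
          rw [h8]
          ring
      _ = θ ^ (2 * (k - f)) * (Real.exp k * (k : ℝ) ^ k) := by rw [h10]
      _ ≤ θ ^ k * (Real.exp k * (k : ℝ) ^ k) := mul_le_mul_of_nonneg_right h9 (by positivity)
      _ = 1 * BB k θ := by
          unfold BB
          ring
      _ ≤ _ := mul_le_mul_of_nonneg_right h11 hBB.le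
  · -- inner node
    push Not at hleaf
    -- the branch `v ∉ gr π`
    have hno : ∀ v ∈ A, ((S.filter (fun π => v ∉ gr π)).card : ℝ) * (k : ℝ) ^ (F₁.card + F₂.card)
        ≤ (1 + 1 / (k : ℝ)) ^ (s - 1) * BB k θ := by
      intro v hv
      have hc : (A.erase v).card = s - 1 := by rw [card_erase_of_mem hv, hs]
      have hApos : 0 < A.card := card_pos.2 ⟨v, hv⟩
      refine ih (s - 1) (by omega) F₁ F₂ (A.erase v) hc ((erase_subset _ _).trans hA) hF
        (disjoint_of_subset_right (erase_subset _ _) hFA) ?_ ?_ ?_ _ ?_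
      · intro x hx
        exact (deg_mono (erase_subset _ _) x).trans (h1 x (mem_of_mem_erase hx))
      · have h4 := EE_loss (F := F₂) (erase_subset v A) h1
        rw [hc] at h4 ⊢
        rw [hs] at h4 h2 hApos
        have e1 : 2 * (5 * k) = 10 * k := by ring
        rw [e1] at h4
        omega
      · rw [hc]
        omega
      · intro π hπ
        rw [mem_filter] at hπ
        obtain ⟨⟨h4, h5⟩, h6⟩ := hS π hπ.1
        refine ⟨⟨h4, ?_⟩, h6⟩
        intro p hp
        rcases mem_union.1 (h5 hp) with h7 | h7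
        · exact mem_union_left _ h7
        · refine mem_union_right _ (mem_erase.2 ⟨?_, h7⟩)
          rintro rfl
          exact hπ.2 hp
    -- combination of the two branches
    have comb : ∀ v ∈ A, ((S.filter (fun π => v ∈ gr π)).card : ℝ) *
        (k : ℝ) ^ (F₁.card + F₂.card + 1) ≤ (1 + 1 / (k : ℝ)) ^ (s - 1) * BB k θ →
        (S.card : ℝ) * (k : ℝ) ^ (F₁.card + F₂.card) ≤ (1 + 1 / (k : ℝ)) ^ s * BB k θ := by
      intro v hv hyes
      have hApos : 0 < A.card := card_pos.2 ⟨v, hv⟩
      have h4 := hno v hv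
      have h5 : (S.card : ℝ) = ((S.filter (fun π => v ∈ gr π)).card : ℝ)
          + ((S.filter (fun π => v ∉ gr π)).card : ℝ) := by
        exact_mod_cast (card_filter_add_card_filter_not (s := S) (fun π => v ∈ gr π)).symm
      have h6 : ((S.filter (fun π => v ∈ gr π)).card : ℝ) * (k : ℝ) ^ (F₁.card + F₂.card)
          ≤ (1 + 1 / (k : ℝ)) ^ (s - 1) * BB k θ * (1 / k) := by
        rw [mul_one_div, le_div_iff₀ hkR, mul_assoc, ← pow_succ]
        exact hyes
      have h7 : (1 + 1 / (k : ℝ)) ^ s = (1 + 1 / (k : ℝ)) ^ (s - 1) * (1 + 1 / (k : ℝ)) := by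
        rw [← pow_succ]
        congr 1
        omega
      rw [h5, add_mul, h7]
      have h8 : (1 + 1 / (k : ℝ)) ^ (s - 1) * (1 + 1 / (k : ℝ)) * BB k θ
          = (1 + 1 / (k : ℝ)) ^ (s - 1) * BB k θ * (1 / k)
            + (1 + 1 / (k : ℝ)) ^ (s - 1) * BB k θ := by ring
      rw [h8]
      exact add_le_add h6 h4
    by_cases hbig : ∃ v ∈ A, 4 * k ≤ deg F₂ A v
    · -- kill the neighbours of `v`
      obtain ⟨v, hv, hdv⟩ := hbig
      refine comb v hv ?_
      rcases (S.filter (fun π => v ∈ gr π)).eq_empty_or_nonempty with hSe | hSn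
      · rw [hSe]
        simp only [card_empty, Nat.cast_zero, zero_mul]
        positivity
      have hApos : 0 < A.card := card_pos.2 ⟨v, hv⟩
      obtain ⟨N, hN⟩ : ∃ N, N = A.filter (fun y => ∃ u ∈ F₂, T u v y) := ⟨_, rfl⟩
      have hNA : N ⊆ A := by
        rw [hN]
        exact filter_subset _ _
      have hvN : v ∉ N := by
        rw [hN, mem_filter]
        rintro ⟨_, u, _, h4⟩
        exact h4.2.2.1 rfl
      have hNc : 4 * k ≤ N.card := by
        refine hdv.trans ?_
        obtain ⟨π, hπ⟩ := hSn
        rw [mem_filter] at hπ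
        obtain ⟨⟨h4, h5⟩, h6⟩ := hS π hπ.1
        unfold deg
        refine card_le_card_of_injOn Prod.snd ?_ ?_
        · intro b hb
          rw [mem_coe, mem_filter, mem_product] at hb
          rw [mem_coe, hN, mem_filter]
          exact ⟨hb.1.2, b.1, hb.1.1, hb.2⟩
        · rintro ⟨u, y⟩ hb ⟨u', y'⟩ hb' he
          rw [mem_coe, mem_filter, mem_product] at hb hb'
          simp only at hb hb' he
          subst he
          by_contra hne
          have huu : u ≠ u' := fun h => hne (by rw [h])
          obtain ⟨⟨hu, _⟩, g1, g2, g3, g4⟩ := hb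
          obtain ⟨⟨hu', _⟩, g5, g6, g7, g8⟩ := hb'
          refine h6 u (h4 (mem_union_right _ hu)) v hπ.2 u' (h4 (mem_union_right _ hu'))
            ⟨g1, huu, g5.symm, ?_⟩
          -- both `u` and `u'` are on the line through `v` and `y`
          have e1 : (u.1 - v.1) * (y.2 - v.2) = (u.2 - v.2) * (y.1 - v.1) := by
            linear_combination -g4
          have e2 : (u'.1 - v.1) * (y.2 - v.2) = (u'.2 - v.2) * (y.1 - v.1) := by
            linear_combination -g8
          have e3 : (u.1 - v.1) * (u'.2 - v.2) = (u.2 - v.2) * (u'.1 - v.1) := by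
            by_cases hx : y.1 - v.1 = 0
            · have hy : y.2 - v.2 ≠ 0 := by
                intro hy
                exact g3 (Prod.ext (by linarith) (by linarith))
              rw [hx, mul_zero] at e1 e2
              have e4 := (mul_eq_zero.1 e1).resolve_right hy
              have e5 := (mul_eq_zero.1 e2).resolve_right hy
              rw [e4, e5]
              ring
            · refine mul_right_cancel₀ hx ?_
              linear_combination (u.1 - v.1) * (-e2) + (u'.1 - v.1) * e1
          linear_combination -e3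
      obtain ⟨A', hA'⟩ : ∃ A', A' = (A.erase v) \ N := ⟨_, rfl⟩
      have hA'A : A' ⊆ A := by
        rw [hA']
        exact sdiff_subset.trans (erase_subset _ _)
      have hcN : A'.card + N.card ≤ s - 1 := by
        have h4 : N ⊆ A.erase v := by
          intro x hx
          refine mem_erase.2 ⟨?_, hNA hx⟩
          rintro rfl
          exact hvN hx
        have h5 := card_sdiff_add_card_eq_card h4
        rw [← hA'] at h5
        rw [h5, card_erase_of_mem hv, hs]
      have hF1v : v ∉ F₁ := fun h =>
        (Finset.disjoint_left.1 hFA (mem_union_left _ h)) hv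
      have hF2v : v ∉ F₂ := fun h =>
        (Finset.disjoint_left.1 hFA (mem_union_right _ h)) hv
      have hci : (insert v F₁).card = F₁.card + 1 := card_insert_of_notMem hF1v
      have h9 := ih A'.card (by omega) (insert v F₁) F₂ A' rfl (hA'A.trans hA) (by
          rw [Finset.disjoint_left]
          intro x hx hx'
          rcases mem_insert.1 hx with h4 | h4
          · rw [h4] at hx'
            exact hF2v hx'
          · exact (Finset.disjoint_left.1 hF h4) hx')
        (by
          rw [Finset.disjoint_left]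
          intro x hx hx'
          rw [mem_union, mem_insert] at hx
          rcases hx with (h4 | h4) | h4
          · rw [h4, hA', mem_sdiff, mem_erase] at hx'
            exact hx'.1.1 rfl
          · exact (Finset.disjoint_left.1 hFA (mem_union_left _ h4)) (hA'A hx')
          · exact (Finset.disjoint_left.1 hFA (mem_union_right _ h4)) (hA'A hx'))
        (fun x hx => (deg_mono hA'A x).trans (h1 x (hA'A hx)))
        (by
          have h4 := EE_loss (F := F₂) hA'A h1
          have e1 : 2 * (5 * k) = 10 * k := by ring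
          rw [e1] at h4
          omega)
        (by
          rw [hci]
          have e1 : 4 * k * (F₁.card + 1) = 4 * k * F₁.card + 4 * k := by ring
          omega)
        (S.filter (fun π => v ∈ gr π)) (by
          intro π hπ
          rw [mem_filter] at hπ
          obtain ⟨⟨h4, h5⟩, h6⟩ := hS π hπ.1
          refine ⟨⟨?_, ?_⟩, h6⟩
          · intro p hp
            rw [mem_union, mem_insert] at hp
            rcases hp with (h7 | h7) | h7
            · rw [h7]
              exact hπ.2
            · exact h4 (mem_union_left _ h7)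
            · exact h4 (mem_union_right _ h7)
          · intro p hp
            rcases mem_union.1 (h5 hp) with h7 | h7
            · refine mem_union_left _ ?_
              rcases mem_union.1 h7 with h8 | h8
              · exact mem_union_left _ (mem_insert_of_mem h8)
              · exact mem_union_right _ h8
            · by_cases hpv : p = v
              · rw [hpv]
                exact mem_union_left _ (mem_union_left _ (mem_insert_self _ _))
              · refine mem_union_right _ ?_
                rw [hA', mem_sdiff, mem_erase]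
                refine ⟨⟨hpv, h7⟩, ?_⟩
                rw [hN, mem_filter]
                rintro ⟨_, u, hu, h8⟩
                exact h6 u (h4 (mem_union_right _ hu)) v hπ.2 p hp h8)
      rw [hci] at h9
      have e2 : F₁.card + 1 + F₂.card = F₁.card + F₂.card + 1 := by ring
      rw [e2] at h9
      refine h9.trans (mul_le_mul_of_nonneg_right ?_ hBB.le)
      exact pow_le_pow_right₀ h1k (by omega)
    · -- add `v` to the generators
      push Not at hbig
      obtain ⟨v, hv, hlv⟩ := hsat A hA hleaf
      refine comb v hv ?_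
      have hApos : 0 < A.card := card_pos.2 ⟨v, hv⟩
      have hc : (A.erase v).card = s - 1 := by rw [card_erase_of_mem hv, hs]
      have hF1v : v ∉ F₁ := fun h =>
        (Finset.disjoint_left.1 hFA (mem_union_left _ h)) hv
      have hF2v : v ∉ F₂ := fun h =>
        (Finset.disjoint_left.1 hFA (mem_union_right _ h)) hv
      have hci : (insert v F₂).card = F₂.card + 1 := card_insert_of_notMem hF2v
      have h9 := ih (s - 1) (by omega) F₁ (insert v F₂) (A.erase v) hc
        ((erase_subset _ _).trans hA) (by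
          rw [Finset.disjoint_left]
          intro x hx hx'
          rcases mem_insert.1 hx' with h4 | h4
          · rw [h4] at hx
            exact hF1v hx
          · exact (Finset.disjoint_left.1 hF hx) h4)
        (by
          rw [Finset.disjoint_left]
          intro x hx hx'
          rw [mem_union, mem_insert] at hx
          rw [mem_erase] at hx'
          rcases hx with h4 | h4 | h4
          · exact (Finset.disjoint_left.1 hFA (mem_union_left _ h4)) hx'.2
          · exact hx'.1 h4
          · exact (Finset.disjoint_left.1 hFA (mem_union_right _ h4)) hx'.2)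
        (by
          intro x hx
          rw [mem_erase] at hx
          have h4 := deg_insert (F := F₂) ((erase_subset v A).trans hA) v x
          have h5 := deg_mono (F := F₂) (erase_subset v A) x
          have h6 := hbig x hx.2
          omega)
        (by
          rw [hc, hci, EE_insert hF2v, link_erase]
          have h4 : EE F₂ A ≤ EE F₂ (A.erase v) + 8 * k := by
            have h5 := EE_loss (F := F₂) (M := 4 * k) (erase_subset v A)
              (fun x hx => (hbig x hx).le)
            rw [hc, hs] at h5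
            have e1 : 2 * (4 * k) * s = 2 * (4 * k) * (s - 1) + 8 * k := by
              have : s = (s - 1) + 1 := by omega
              nth_rewrite 1 [this]
              ring
            omega
          rw [hs] at h2
          have e2 : 40 * k ^ 2 * (F₂.card + 1) = 40 * k ^ 2 * F₂.card + 40 * k ^ 2 := by ring
          have e3 : 10 * k * (s - 1) ≤ 10 * k * s := Nat.mul_le_mul_left _ (by omega)
          omega)
        (by
          rw [hc]
          omega)
        (S.filter (fun π => v ∈ gr π)) (by
          intro π hπ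
          rw [mem_filter] at hπ
          obtain ⟨⟨h4, h5⟩, h6⟩ := hS π hπ.1
          refine ⟨⟨?_, ?_⟩, h6⟩
          · intro p hp
            rw [mem_union, mem_insert] at hp
            rcases hp with h7 | h7 | h7
            · exact h4 (mem_union_left _ h7)
            · rw [h7]
              exact hπ.2
            · exact h4 (mem_union_right _ h7)
          · intro p hp
            rcases mem_union.1 (h5 hp) with h7 | h7
            · refine mem_union_left _ ?_
              rcases mem_union.1 h7 with h8 | h8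
              · exact mem_union_left _ h8
              · exact mem_union_right _ (mem_insert_of_mem h8)
            · by_cases hpv : p = v
              · rw [hpv]
                exact mem_union_left _ (mem_union_right _ (mem_insert_self _ _))
              · exact mem_union_right _ (mem_erase.2 ⟨hpv, h7⟩))
      rw [hci] at h9
      have e2 : F₁.card + (F₂.card + 1) = F₁.card + F₂.card + 1 := by ring
      rw [e2] at h9
      exact h9

end Pool.Agent.Lib.MPc99423
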